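import Pool.Agent.W528.Ord.Null
import Pool.Agent.W528.Ord.Dens

/-!
# The connected component by the Noetherian property

Let `A` be a Noetherian, translation stable algebra of continuous functions on a profinite group. There is
an open normal subgroup `U` such that every function of `A` which vanishes on a subset of positive
measure of a coset of `U` vanishes on the whole coset, up to a smaller coset: precisely, for every
coset either the function is zero on the coset or its zeros in the coset have measure zero.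
-/

set_option autoImplicit false
set_option linter.all false

namespace Pool.Agent.N144.OF

open MeasureTheory Topology Filter Pool.Agent.W528.Ord

variable {G Ω : Type*} [Group G] [Field Ω]

/-- the functions of `A` which vanish on `U` -/
def van (A : Subalgebra Ω (G → Ω)) (U : Subgroup G) : Ideal A where
  carrier := {F | ∀ u ∈ U, (F : G → Ω) u = 0}
  add_mem' := by
    intro a b ha hb u hu
    change (a : G → Ω) u + (b : G → Ω) u = 0
    rw [ha u hu, hb u hu, add_zero]
  zero_mem' := fun u _ => rfl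
  smul_mem' := by
    intro c a ha u hu
    change (c : G → Ω) u * (a : G → Ω) u = 0
    rw [ha u hu, mul_zero]

theorem van_anti (A : Subalgebra Ω (G → Ω)) {U V : Subgroup G} (h : U ≤ V) : van A V ≤ van A U :=
  fun _ hF u hu => hF u (h hu)

/-- an open normal subgroup with a minimal Zariski closure -/
def IsMin [TopologicalSpace G] (A : Subalgebra Ω (G → Ω)) (U : Subgroup G) : Prop :=
  ∀ U' : Subgroup G, U' ≤ U → IsOpen (U' : Set G) → ∀ F ∈ A, (∀ u ∈ U', F u = 0) → ∀ u ∈ U, F u = 0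

theorem exists_min [TopologicalSpace G] [IsTopologicalGroup G] [CompactSpace G] [T2Space G]
    [TotallyDisconnectedSpace G] (A : Subalgebra Ω (G → Ω)) [IsNoetherianRing A] :
    ∃ U : Subgroup G, IsOpen (U : Set G) ∧ U.Normal ∧ IsMin A U := by
  classical
  obtain ⟨I, ⟨U₁, hU₁, rfl⟩, hmax⟩ := WellFounded.has_min (wellFounded_gt (α := Ideal A))
    {I : Ideal A | ∃ U : Subgroup G, IsOpen (U : Set G) ∧ I = van A U} ⟨van A ⊤, ⊤, isOpen_univ, rfl⟩
  obtain ⟨U, hU⟩ := ProfiniteGrp.exist_openNormalSubgroup_sub_open_nhds_of_one hU₁ U₁.one_mem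
  have hUU : U.toSubgroup ≤ U₁ := fun x hx => hU hx
  refine ⟨U.toSubgroup, U.isOpen', U.isNormal', ?_⟩
  intro U' hU' hop F hF hz u hu
  have h1 : van A U₁ ≤ van A U' := van_anti A (hU'.trans hUU)
  have h2 : van A U' = van A U₁ := by
    by_contra hne
    exact hmax _ ⟨U', hop, rfl⟩ (lt_of_le_of_ne h1 (Ne.symm hne))
  have h3 : (⟨F, hF⟩ : A) ∈ van A U₁ := by
    rw [← h2]
    exact hz
  exact h3 u (hUU hu)

/-- the union of the conjugates of the coset `γ U` -/
def cls (U : Subgroup G) (γ : G) : Set G := {x | ∃ τ : G, γ⁻¹ * (τ * x * τ⁻¹) ∈ U}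

theorem cls_conj (U : Subgroup G) (γ : G) : ∀ σ ∈ cls U γ, ∀ τ : G, τ * σ * τ⁻¹ ∈ cls U γ := by
  rintro σ ⟨t, ht⟩ τ
  refine ⟨t * τ⁻¹, ?_⟩
  have : t * τ⁻¹ * (τ * σ * τ⁻¹) * (t * τ⁻¹)⁻¹ = t * σ * t⁻¹ := by group
  rw [this]
  exact ht

theorem cls_mul (U : Subgroup G) [hN : U.Normal] (γ : G) : ∀ σ ∈ cls U γ, ∀ u ∈ U, σ * u ∈ cls U γ := by
  rintro σ ⟨t, ht⟩ u hu
  refine ⟨t, ?_⟩
  have : γ⁻¹ * (t * (σ * u) * t⁻¹) = γ⁻¹ * (t * σ * t⁻¹) * (t * u * t⁻¹) := by group
  rw [this]
  exact U.mul_mem ht (hN.conj_mem u hu t)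

theorem cls_self (U : Subgroup G) (γ : G) : γ ∈ cls U γ := ⟨1, by simp⟩

theorem cls_closed [TopologicalSpace G] [IsTopologicalGroup G] (U : Subgroup G) [hN : U.Normal] (hU : IsOpen (U : Set G)) (γ : G) :
    IsClosed (cls U γ) := by
  have h : IsOpen (cls U γ)ᶜ := by
    rw [isOpen_iff_mem_nhds]
    intro x hx
    have h1 : (fun y => x⁻¹ * y) ⁻¹' (U : Set G) ∈ 𝓝 x :=
      (hU.preimage (continuous_mul_left x⁻¹)).mem_nhds (by simp)
    filter_upwards [h1] with y hy
    intro hyc
    apply hx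
    have := cls_mul U γ y hyc (x⁻¹ * y)⁻¹ (U.inv_mem hy)
    simpa using this
  exact ⟨h⟩

section measure

variable [TopologicalSpace G] [IsTopologicalGroup G] [CompactSpace G] [T2Space G]
  [MeasurableSpace G] [BorelSpace G] [TopologicalSpace Ω] [T2Space Ω]

theorem subgroup_null (μ : Measure G) [IsProbabilityMeasure μ] [μ.IsMulLeftInvariant]
    (A : Subalgebra Ω (G → Ω)) [IsNoetherianRing A]
    (hA : ∀ g : G, ∀ F ∈ A, (fun x => F (g * x)) ∈ A) (hc : ∀ F ∈ A, Continuous F)
    (U : Subgroup G) (hU : IsOpen (U : Set G)) (hmin : IsMin A U) (F : G → Ω) (hF : F ∈ A) :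
    (∀ u ∈ U, F u = 0) ∨ μ {x | F x = 0 ∧ x ∈ U} = 0 := by
  classical
  by_cases h0 : μ {x | F x = 0 ∧ x ∈ U} = 0
  · exact Or.inr h0
  left
  have hUm : MeasurableSet (U : Set G) := hU.measurableSet
  haveI : Finite (G ⧸ U) := Subgroup.quotient_finite_of_isOpen _ hU
  have hμU : μ (U : Set G) ≠ 0 := by
    intro h
    have := measure_U μ U hU
    rw [h, mul_zero] at this
    exact zero_ne_one this
  have hμt : μ (U : Set G) ≠ ⊤ := measure_ne_top μ _
  have hemb : MeasurableEmbedding (Subtype.val : U → G) := MeasurableEmbedding.subtype_coe hUm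
  let ν : Measure U := (μ (U : Set G))⁻¹ • μ.comap Subtype.val
  have hν : ∀ s : Set U, ν s = (μ (U : Set G))⁻¹ * μ (Subtype.val '' s) := by
    intro s
    change ((μ (U : Set G))⁻¹ • μ.comap Subtype.val) s = _
    rw [Measure.smul_apply, hemb.comap_apply, smul_eq_mul]
  haveI : IsProbabilityMeasure ν := ⟨by
    rw [hν, Set.image_univ, Subtype.range_val]
    exact ENNReal.inv_mul_cancel hμU hμt⟩
  haveI : CompactSpace U := isCompact_iff_compactSpace.mp (U.isClosed_of_isOpen hU).isCompact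
  haveI : ν.IsMulLeftInvariant := ⟨by
    intro g
    ext s hs
    rw [Measure.map_apply (measurable_const_mul g) hs, hν, hν]
    congr 1
    have e : (Subtype.val '' ((fun x : U => g * x) ⁻¹' s) : Set G) =
        (fun x : G => (g : G) * x) ⁻¹' (Subtype.val '' s) := by
      ext x
      constructor
      · rintro ⟨y, hy, rfl⟩
        exact ⟨g * y, hy, rfl⟩
      · rintro ⟨y, hy, hyx⟩
        have hx : x = ((g⁻¹ * y : U) : G) := by
          rw [Subgroup.coe_mul, Subgroup.coe_inv, hyx]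
          group
        refine ⟨g⁻¹ * y, ?_, hx.symm⟩
        change g * (g⁻¹ * y) ∈ s
        rwa [mul_inv_cancel_left]
    rw [e, measure_preimage_mul]⟩
  let res : (G → Ω) →ₐ[Ω] (U → Ω) :=
    { toFun := fun f u => f u
      map_one' := rfl
      map_mul' := fun _ _ => rfl
      map_zero' := rfl
      map_add' := fun _ _ => rfl
      commutes' := fun _ => rfl }
  let AU : Subalgebra Ω (U → Ω) := A.map res
  have hAU : ∀ f : U → Ω, f ∈ AU ↔ ∃ F ∈ A, ∀ u : U, F u = f u := by
    intro f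
    constructor
    · rintro ⟨F, hF, rfl⟩
      exact ⟨F, hF, fun _ => rfl⟩
    · rintro ⟨F, hF, h⟩
      exact ⟨F, hF, funext h⟩
  haveI : IsNoetherianRing AU := by
    let φ : A →+* AU :=
      { toFun := fun F => ⟨res F, ⟨F, F.2, rfl⟩⟩
        map_one' := rfl
        map_mul' := fun _ _ => rfl
        map_zero' := rfl
        map_add' := fun _ _ => rfl }
    refine isNoetherianRing_of_surjective _ _ φ ?_
    rintro ⟨_, F, hF, rfl⟩
    exact ⟨⟨F, hF⟩, rfl⟩
  have hFU : res F ∈ AU := ⟨F, hF, rfl⟩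
  have hpos : ν {u | res F u = 0} ≠ 0 := by
    rw [hν]
    have e : (Subtype.val '' {u : U | res F u = 0} : Set G) = {x | F x = 0 ∧ x ∈ U} := by
      ext x
      constructor
      · rintro ⟨y, hy, rfl⟩
        exact ⟨hy, y.2⟩
      · rintro ⟨h1, h2⟩
        exact ⟨⟨x, h2⟩, h1, rfl⟩
    rw [e]
    exact mul_ne_zero (ENNReal.inv_ne_zero.mpr hμt) h0
  obtain ⟨W, γ, hW, hWγ⟩ := coset_of_pos ν AU (by
      intro g f hf
      obtain ⟨F', hF', h⟩ := (hAU f).mp hf
      refine (hAU _).mpr ⟨_, hA (g : G) F' hF', fun u => ?_⟩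
      exact h (g * u)) (by
      intro f hf
      obtain ⟨F', hF', h⟩ := (hAU f).mp hf
      have : f = fun u : U => F' (u : G) := funext fun u => (h u).symm
      rw [this]
      exact (hc F' hF').comp continuous_subtype_val) (res F) hFU hpos
  have hop : IsOpen ((W.map U.subtype : Subgroup G) : Set G) := by
    have : ((W.map U.subtype : Subgroup G) : Set G) = Subtype.val '' (W : Set U) := by
      ext x
      simp [Subgroup.mem_map]
    rw [this]
    exact hU.isOpenMap_subtype_val _ hW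
  have hle : W.map U.subtype ≤ U := by
    rintro _ ⟨w, _, rfl⟩
    exact w.2
  have h1 := hmin _ hle hop (fun x => F ((γ : G) * x)) (hA _ F hF) (by
    rintro _ ⟨w, hw, rfl⟩
    exact hWγ w hw)
  intro u hu
  have h2 := h1 ((γ : G)⁻¹ * u) (U.mul_mem (U.inv_mem γ.2) hu)
  simpa using h2

/-- for the cosets -/
theorem coset_null (μ : Measure G) [IsProbabilityMeasure μ] [μ.IsMulLeftInvariant]
    (A : Subalgebra Ω (G → Ω)) [IsNoetherianRing A]
    (hA : ∀ g : G, ∀ F ∈ A, (fun x => F (g * x)) ∈ A) (hc : ∀ F ∈ A, Continuous F)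
    (U : Subgroup G) (hU : IsOpen (U : Set G)) (hmin : IsMin A U) (F : G → Ω) (hF : F ∈ A) (γ : G) :
    (∀ u ∈ U, F (γ * u) = 0) ∨ μ {x | F x = 0 ∧ γ⁻¹ * x ∈ U} = 0 := by
  rcases subgroup_null μ A hA hc U hU hmin (fun x => F (γ * x)) (hA γ F hF) with h | h
  · exact Or.inl h
  · right
    have e : {x | F x = 0 ∧ γ⁻¹ * x ∈ U} = (fun x => γ⁻¹ * x) ⁻¹' {x | F (γ * x) = 0 ∧ x ∈ U} := by
      ext x
      simp
    rw [e, measure_preimage_mul]
    exact h

/-- for the classes of cosets -/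
theorem class_null (μ : Measure G) [IsProbabilityMeasure μ] [μ.IsMulLeftInvariant]
    (A : Subalgebra Ω (G → Ω)) [IsNoetherianRing A]
    (hA : ∀ g : G, ∀ F ∈ A, (fun x => F (g * x)) ∈ A) (hc : ∀ F ∈ A, Continuous F)
    (U : Subgroup G) [hN : U.Normal] (hU : IsOpen (U : Set G)) (hmin : IsMin A U) (F : G → Ω) (hF : F ∈ A)
    (hcl : ∀ σ τ : G, F (τ * σ * τ⁻¹) = F σ) (γ : G) :
    (∀ σ ∈ cls U γ, F σ = 0) ∨ μ {x | F x = 0 ∧ x ∈ cls U γ} = 0 := by
  classical
  by_cases h : ∀ u ∈ U, F (γ * u) = 0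
  · left
    rintro σ ⟨t, ht⟩
    have h1 := h _ ht
    rw [mul_inv_cancel_left, hcl] at h1
    exact h1
  · right
    haveI : Finite (G ⧸ U) := Subgroup.quotient_finite_of_isOpen _ hU
    have hsub : {x | F x = 0 ∧ x ∈ cls U γ} ⊆ ⋃ q : G ⧸ U,
        {x | F x = 0 ∧ (q.out)⁻¹ * x ∈ U ∧ x ∈ cls U γ} := by
      rintro x ⟨h1, h2⟩
      refine Set.mem_iUnion.mpr ⟨QuotientGroup.mk x, h1, ?_, h2⟩
      rw [← QuotientGroup.eq]
      exact Quotient.out_eq _
    refine measure_mono_null hsub ?_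
    rw [measure_iUnion_null_iff]
    intro q
    by_cases hq : q.out ∈ cls U γ
    · rcases coset_null μ A hA hc U hU hmin F hF q.out with h1 | h1
      · exfalso
        apply h
        intro u hu
        obtain ⟨t, ht⟩ := hq
        -- γ u = t (out * w) t⁻¹
        set w : G := q.out⁻¹ * (t⁻¹ * (γ * u) * t) with hw
        have hwU : w ∈ U := by
          have e1 : w = t⁻¹ * (t * q.out⁻¹ * t⁻¹ * γ * u) * t := by rw [hw]; group
          rw [e1]
          have e2 : t⁻¹ * (t * q.out⁻¹ * t⁻¹ * γ * u) * t =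
            t⁻¹ * (t * q.out⁻¹ * t⁻¹ * γ * u) * (t⁻¹)⁻¹ := by group
          rw [e2]
          apply hN.conj_mem
          apply U.mul_mem _ hu
          have e3 : t * q.out⁻¹ * t⁻¹ * γ = (γ⁻¹ * (t * q.out * t⁻¹))⁻¹ := by group
          rw [e3]
          exact U.inv_mem ht
        have h2 := h1 w hwU
        have e4 : q.out * w = t⁻¹ * (γ * u) * t := by rw [hw]; group
        rw [e4] at h2
        have h3 := hcl (γ * u) t⁻¹
        rw [inv_inv] at h3
        rw [← h3]
        exact h2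
      · refine measure_mono_null ?_ h1
        rintro x ⟨h2, h3, _⟩
        exact ⟨h2, h3⟩
    · have : {x | F x = 0 ∧ (q.out)⁻¹ * x ∈ U ∧ x ∈ cls U γ} = ∅ := by
        ext x
        simp only [Set.mem_setOf_eq, Set.mem_empty_iff_false, iff_false, not_and]
        intro _ hx hxc
        apply hq
        have := cls_mul U γ x hxc (q.out⁻¹ * x)⁻¹ (U.inv_mem hx)
        simpa using this
      rw [this, measure_empty]

end measure

end Pool.Agent.N144.OF
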