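import Pool.Agent.W63.HS.TR
import Pool.Agent.N144.OF.Grp

/-!
# Polynomial functions of the entries of a matrix representation
-/

set_option autoImplicit false
set_option linter.all false

namespace Pool.Agent.N144.OF

open Polynomial Matrix

section alg

variable {G Ω : Type*} [Group G] [Field Ω] {n : ℕ} (τ : G →* Matrix (Fin n) (Fin n) Ω)

/-- the matrix entries -/
def ent (g : G) (x : Fin n × Fin n) : Ω := τ g x.1 x.2

/-- the polynomial functions of the matrix entries -/
noncomputable def PA : Subalgebra Ω (G → Ω) :=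
  (MvPolynomial.aeval (fun (x : Fin n × Fin n) (g : G) => ent τ g x)).range

theorem aeval_fun (P : MvPolynomial (Fin n × Fin n) Ω) (g : G) :
    (MvPolynomial.aeval (fun (x : Fin n × Fin n) (g : G) => ent τ g x) P) g =
      MvPolynomial.eval (ent τ g) P := by
  have h : (Pi.evalAlgHom Ω (fun _ : G => Ω) g).comp
      (MvPolynomial.aeval (fun (x : Fin n × Fin n) (g : G) => ent τ g x)) =
      MvPolynomial.aeval (ent τ g) := by
    apply MvPolynomial.algHom_ext
    intro i
    simp
  have h2 := DFunLike.congr_fun h P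
  rw [AlgHom.comp_apply] at h2
  exact h2

theorem mem_PA (F : G → Ω) : F ∈ PA τ ↔ ∃ P : MvPolynomial (Fin n × Fin n) Ω,
    ∀ g, F g = MvPolynomial.eval (ent τ g) P := by
  constructor
  · rintro ⟨P, rfl⟩
    exact ⟨P, fun g => aeval_fun τ P g⟩
  · rintro ⟨P, hP⟩
    refine ⟨P, ?_⟩
    funext g
    rw [hP g]
    exact aeval_fun τ P g

theorem noeth : IsNoetherianRing (PA τ) := by
  let f : MvPolynomial (Fin n × Fin n) Ω →ₐ[Ω] (G → Ω) := MvPolynomial.aeval
    (fun (x : Fin n × Fin n) (g : G) => ent τ g x)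
  have hs : Function.Surjective f.rangeRestrict := AlgHom.rangeRestrict_surjective _
  exact isNoetherianRing_of_surjective _ _ f.rangeRestrict.toRingHom hs

theorem entry_mem (i j : Fin n) : (fun g => τ g i j) ∈ PA τ := by
  rw [mem_PA]
  exact ⟨MvPolynomial.X (i, j), fun g => by rw [MvPolynomial.eval_X]; rfl⟩

theorem trans_mem (g : G) (F : G → Ω) (hF : F ∈ PA τ) : (fun x => F (g * x)) ∈ PA τ := by
  rw [mem_PA] at hF
  obtain ⟨P, hP⟩ := hF
  have h : (fun x => F (g * x)) = fun x => MvPolynomial.eval (ent τ (g * x)) P := by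
    funext x; exact hP _
  rw [h]
  clear h hP
  induction P using MvPolynomial.induction_on with
  | C a =>
    have : (fun x => MvPolynomial.eval (ent τ (g * x)) (MvPolynomial.C a)) =
        algebraMap Ω (G → Ω) a := by
      funext x
      rw [MvPolynomial.eval_C]
      rfl
    rw [this]
    exact (PA τ).algebraMap_mem a
  | add p q hp hq =>
    have : (fun x => MvPolynomial.eval (ent τ (g * x)) (p + q)) =
        (fun x => MvPolynomial.eval (ent τ (g * x)) p) +
        (fun x => MvPolynomial.eval (ent τ (g * x)) q) := by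
      funext x
      rw [map_add]
      rfl
    rw [this]
    exact (PA τ).add_mem hp hq
  | mul_X p i hp =>
    have : (fun x => MvPolynomial.eval (ent τ (g * x)) (p * MvPolynomial.X i)) =
        (fun x => MvPolynomial.eval (ent τ (g * x)) p) * (fun x => ent τ (g * x) i) := by
      funext x
      rw [map_mul, MvPolynomial.eval_X]
      rfl
    rw [this]
    apply (PA τ).mul_mem hp
    have e : (fun x => ent τ (g * x) i) =
        ∑ k : Fin n, (τ g i.1 k) • (fun x => τ x k i.2) := by
      funext x
      rw [Finset.sum_apply]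
      change (τ (g * x)) i.1 i.2 = _
      rw [map_mul, Matrix.mul_apply]
      rfl
    rw [e]
    exact (PA τ).sum_mem fun k _ => (PA τ).smul_mem (entry_mem τ k i.2) _

theorem cont_mem [TopologicalSpace G] [TopologicalSpace Ω] [IsTopologicalRing Ω]
    (hτ : Continuous τ) (F : G → Ω) (hF : F ∈ PA τ) : Continuous F := by
  rw [mem_PA] at hF
  obtain ⟨P, hP⟩ := hF
  have h : F = fun x => MvPolynomial.eval (ent τ x) P := by
    funext x; exact hP _
  rw [h]
  clear h hP
  induction P using MvPolynomial.induction_on with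
  | C a => simp only [MvPolynomial.eval_C]; exact continuous_const
  | add p q hp hq => simp only [map_add]; exact hp.add hq
  | mul_X p i hp =>
    simp only [map_mul, MvPolynomial.eval_X]
    exact hp.mul ((continuous_apply_apply i.1 i.2).comp hτ)

end alg

section disc

/-- the determinant of the matrix of the power sums of the eigenvalues, the discriminant of the
characteristic polynomial -/
noncomputable def disc {R : Type*} [CommRing R] {n : ℕ} (M : Matrix (Fin n) (Fin n) R) : R :=
  (Matrix.of fun i j : Fin n => (M ^ ((i : ℕ) + j)).trace).det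

theorem disc_map {R S : Type*} [CommRing R] [CommRing S] (f : R →+* S) {n : ℕ}
    (M : Matrix (Fin n) (Fin n) R) : disc (M.map f) = f (disc M) := by
  unfold disc
  rw [RingHom.map_det]
  congr 1
  ext i j
  simp only [Matrix.of_apply, RingHom.mapMatrix_apply, Matrix.map_apply]
  have h : (M.map f) ^ ((i : ℕ) + j) = (M ^ ((i : ℕ) + j)).map f := by
    have := (map_pow (f.mapMatrix (m := Fin n)) M ((i : ℕ) + j)).symm
    simpa only [RingHom.mapMatrix_apply] using this
  rw [h, Matrix.trace, Matrix.trace, map_sum]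
  rfl

/-- `det (M ^ N - 1)` -/
noncomputable def dpow {R : Type*} [CommRing R] {n : ℕ} (N : ℕ) (M : Matrix (Fin n) (Fin n) R) : R :=
  (M ^ N - 1).det

theorem dpow_map {R S : Type*} [CommRing R] [CommRing S] (f : R →+* S) {n : ℕ} (N : ℕ)
    (M : Matrix (Fin n) (Fin n) R) : dpow N (M.map f) = f (dpow N M) := by
  unfold dpow
  rw [RingHom.map_det, map_sub, map_pow, map_one]
  rfl

variable {G Ω : Type*} [Group G] [Field Ω] {n : ℕ} (τ : G →* Matrix (Fin n) (Fin n) Ω)

theorem disc_mem : (fun g => disc (τ g)) ∈ PA τ := by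
  let M' : Matrix (Fin n) (Fin n) (PA τ) := fun i j => ⟨_, entry_mem τ i j⟩
  have h2 : (fun g => disc (τ g)) = ((disc M' : PA τ) : G → Ω) := by
    funext g
    let ev : (PA τ) →+* Ω := (Pi.evalRingHom (fun _ : G => Ω) g).comp (PA τ).val.toRingHom
    have h3 : M'.map ev = τ g := rfl
    have h4 := disc_map ev M'
    rw [h3] at h4
    exact h4
  rw [h2]
  exact (disc M').2

theorem dpow_mem (N : ℕ) : (fun g => dpow N (τ g)) ∈ PA τ := by
  let M' : Matrix (Fin n) (Fin n) (PA τ) := fun i j => ⟨_, entry_mem τ i j⟩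
  have h2 : (fun g => dpow N (τ g)) = ((dpow N M' : PA τ) : G → Ω) := by
    funext g
    let ev : (PA τ) →+* Ω := (Pi.evalRingHom (fun _ : G => Ω) g).comp (PA τ).val.toRingHom
    have h3 : M'.map ev = τ g := rfl
    have h4 := dpow_map ev N M'
    rw [h3] at h4
    exact h4
  rw [h2]
  exact (dpow N M').2

theorem conj_eq (σ t : G) : τ (t * σ * t⁻¹) = τ t * τ σ * τ t⁻¹ := by
  rw [map_mul, map_mul]

theorem inv_mul (t : G) : τ t⁻¹ * τ t = 1 := by
  rw [← map_mul, inv_mul_cancel, map_one]

theorem pow_conj (σ t : G) (k : ℕ) : (τ (t * σ * t⁻¹)) ^ k = τ t * (τ σ) ^ k * τ t⁻¹ := by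
  rw [← map_pow, ← map_pow, conj_pow, conj_eq]

theorem disc_conj (σ t : G) : disc (τ (t * σ * t⁻¹)) = disc (τ σ) := by
  unfold disc
  congr 1
  ext i j
  simp only [Matrix.of_apply]
  rw [pow_conj, Matrix.trace_mul_comm, ← mul_assoc, inv_mul, one_mul]

theorem dpow_conj (N : ℕ) (σ t : G) : dpow N (τ (t * σ * t⁻¹)) = dpow N (τ σ) := by
  unfold dpow
  rw [pow_conj]
  have h : τ t * τ σ ^ N * τ t⁻¹ - 1 = τ t * (τ σ ^ N - 1) * τ t⁻¹ := by
    rw [mul_sub, sub_mul, mul_one, ← map_mul, mul_inv_cancel, map_one]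
  rw [h, Matrix.det_mul, Matrix.det_mul, mul_comm, ← mul_assoc, ← Matrix.det_mul, inv_mul,
    Matrix.det_one, one_mul]

end disc

section eig

open Pool.Agent.W63.HS.TR

/-- a multiset is the multiset of the values of a function -/
theorem exists_enum {L : Type*} (s : Multiset L) (n : ℕ) (h : s.card = n) :
    ∃ a : Fin n → L, s = Finset.univ.val.map a := by
  obtain ⟨l, rfl⟩ := Quot.exists_rep s
  change l.length = n at h
  subst h
  refine ⟨l.get, ?_⟩
  rw [Fin.univ_val_map, List.ofFn_get]
  rfl

variable {L : Type} [Field L] {n : ℕ}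

theorem exists_eig [IsAlgClosed L] (M : Matrix (Fin n) (Fin n) L) :
    ∃ a : Fin n → L, M.charpoly.roots = Finset.univ.val.map a ∧
      M.charpoly = ∏ i, (X - C (a i)) ∧ ∀ k, (M ^ k).trace = ∑ i, a i ^ k := by
  obtain ⟨a, ha⟩ := exists_enum M.charpoly.roots n (by rw [Pool.Agent.W63.HS.TR.card_roots', Fintype.card_fin])
  refine ⟨a, ha, ?_, fun k => ?_⟩
  · have h := charpoly_prod M
    rw [ha, Multiset.map_map] at h
    exact h
  · by_cases hk : k = 0
    · subst hk
      simp
    · rw [trace_pow M hk, ha, Multiset.map_map]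
      rfl

theorem disc_ne_zero_of_closed [IsAlgClosed L] (M : Matrix (Fin n) (Fin n) L) :
    disc M ≠ 0 ↔ M.charpoly.Separable := by
  obtain ⟨a, _, h2, h3⟩ := exists_eig M
  have e : (Matrix.of fun i j : Fin n => (M ^ ((i : ℕ) + j)).trace) =
      (Matrix.vandermonde a)ᵀ * Matrix.vandermonde a := by
    ext i j
    rw [Matrix.of_apply, h3, Matrix.mul_apply]
    apply Finset.sum_congr rfl
    intro k _
    rw [Matrix.transpose_apply, Matrix.vandermonde_apply, Matrix.vandermonde_apply, pow_add]
  unfold disc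
  rw [e, Matrix.det_mul, Matrix.det_transpose, mul_self_ne_zero, Matrix.det_vandermonde_ne_zero_iff,
    h2, Polynomial.separable_prod_X_sub_C_iff]

theorem disc_ne_zero_iff (M : Matrix (Fin n) (Fin n) L) : disc M ≠ 0 ↔ M.charpoly.Separable := by
  have h := disc_ne_zero_of_closed (M.map (algebraMap L (AlgebraicClosure L)))
  rw [disc_map, Matrix.charpoly_map, Polynomial.separable_map, map_ne_zero_iff _
    (algebraMap L (AlgebraicClosure L)).injective] at h
  exact h

/-- the discriminant of a power -/
theorem disc_pow_ne_zero [CharZero L] (M : Matrix (Fin n) (Fin n) L) (k : ℕ) (hk : 0 < k)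
    (hs : M.charpoly.Separable)
    (h : ∀ a b : AlgebraicClosure L, aeval a M.charpoly = 0 → aeval b M.charpoly = 0 → a ^ k = b ^ k → a = b) :
    disc (M ^ k) ≠ 0 := by
  set f := algebraMap L (AlgebraicClosure L)
  set M' := M.map f with hM'
  have e : disc (M' ^ k) = f (disc (M ^ k)) := by
    rw [← disc_map]
    congr 1
    have := (map_pow (f.mapMatrix (m := Fin n)) M k)
    exact this.symm
  rw [← map_ne_zero_iff f f.injective, ← e, disc_ne_zero_of_closed, charpoly_pow M' hk.ne']
  obtain ⟨a, h1, h2, _⟩ := exists_eig M'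
  have hsep : M'.charpoly.Separable := by
    rw [hM', Matrix.charpoly_map, Polynomial.separable_map]
    exact hs
  rw [h2, Polynomial.separable_prod_X_sub_C_iff] at hsep
  rw [h1, Multiset.map_map]
  change (∏ i, (X - C (a i ^ k))).Separable
  rw [Polynomial.separable_prod_X_sub_C_iff]
  intro i j hij
  apply hsep
  have hr : ∀ i, aeval (a i) M.charpoly = 0 := by
    intro i
    have : (M'.charpoly).eval (a i) = 0 := by
      rw [h2, eval_prod]
      exact Finset.prod_eq_zero (Finset.mem_univ i) (by simp)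
    rwa [hM', Matrix.charpoly_map, eval_map_algebraMap] at this
  exact h _ _ (hr i) (hr j) hij

theorem dpow_ne_zero_iff (M : Matrix (Fin n) (Fin n) L) (N : ℕ) :
    dpow N M ≠ 0 ↔ ∀ a : AlgebraicClosure L, aeval a M.charpoly = 0 → a ^ N ≠ 1 := by
  set f := algebraMap L (AlgebraicClosure L)
  set M' := M.map f with hM'
  have e : dpow N M' = f (dpow N M) := dpow_map f N M
  rw [← map_ne_zero_iff f f.injective, ← e]
  have e2 : dpow N M' = (M'.charpoly.roots.map fun a => a ^ N - 1).prod := by
    by_cases hN : N = 0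
    · subst hN
      have h0 : dpow 0 M' = (0 : Matrix (Fin n) (Fin n) (AlgebraicClosure L)).det := by
        unfold dpow
        simp
      have h1 : ∀ a ∈ M'.charpoly.roots, a ^ 0 - 1 = (0 : AlgebraicClosure L) := fun a _ => by simp
      rw [h0, Multiset.map_congr rfl h1, Multiset.map_const', Pool.Agent.W63.HS.TR.card_roots', Multiset.prod_replicate,
        Fintype.card_fin]
      rcases Nat.eq_zero_or_pos n with hn | hn
      · subst hn
        simp
      · haveI : Nonempty (Fin n) := ⟨⟨0, hn⟩⟩
        rw [Matrix.det_zero, zero_pow hn.ne']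
    · have h1 := det_aeval M' (p := X ^ N - C 1) (monic_X_pow_sub_C 1 hN)
      simp only [map_sub, map_pow, aeval_X, aeval_C, map_one, eval_sub, eval_pow, eval_X, eval_C, eval_one] at h1
      exact h1
  rw [e2, Ne, Multiset.prod_eq_zero_iff, Multiset.mem_map]
  have hroot : ∀ a, a ∈ M'.charpoly.roots ↔ aeval a M.charpoly = 0 := by
    intro a
    rw [mem_roots (Matrix.charpoly_monic M').ne_zero, IsRoot.def, hM', Matrix.charpoly_map,
      eval_map_algebraMap]
  constructor
  · intro h a ha haN
    exact h ⟨a, (hroot a).mpr ha, by rw [haN, sub_self]⟩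
  · rintro h ⟨a, ha, haN⟩
    exact h a ((hroot a).mp ha) (sub_eq_zero.mp haN)

end eig

end Pool.Agent.N144.OF
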