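import Pool.Agent.N144.OF.Main3

/-!
# Several polynomial functions: pairs of representations, multiplicities, determinants
-/

set_option autoImplicit false
set_option linter.all false

namespace Pool.Agent.N144.OF

open Polynomial Matrix

section pair

variable {G Ω : Type*} [Group G] [Field Ω] {N n : ℕ}

/-- the direct sum of two representations -/
def dsum (ρ : G →* Matrix (Fin N) (Fin N) Ω) (τ : G →* Matrix (Fin n) (Fin n) Ω) :
    G →* Matrix (Fin (N + n)) (Fin (N + n)) Ω where
  toFun g := Matrix.reindex finSumFinEquiv finSumFinEquiv (Matrix.fromBlocks (ρ g) 0 0 (τ g))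
  map_one' := by
    rw [map_one, map_one, Matrix.fromBlocks_one, Matrix.reindex_apply, Matrix.submatrix_one_equiv]
  map_mul' a b := by
    have h : Matrix.fromBlocks (ρ (a * b)) 0 0 (τ (a * b)) =
        Matrix.fromBlocks (ρ a) 0 0 (τ a) * Matrix.fromBlocks (ρ b) 0 0 (τ b) := by
      rw [Matrix.fromBlocks_multiply, map_mul, map_mul]
      simp
    rw [h, Matrix.reindex_apply, Matrix.reindex_apply, Matrix.reindex_apply,
      Matrix.submatrix_mul_equiv]

theorem dsum_l (ρ : G →* Matrix (Fin N) (Fin N) Ω) (τ : G →* Matrix (Fin n) (Fin n) Ω) (g : G)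
    (i j : Fin N) : dsum ρ τ g (finSumFinEquiv (Sum.inl i)) (finSumFinEquiv (Sum.inl j)) = ρ g i j := by
  change (Matrix.reindex finSumFinEquiv finSumFinEquiv (Matrix.fromBlocks (ρ g) 0 0 (τ g))) _ _ = _
  rw [Matrix.reindex_apply, Matrix.submatrix_apply, Equiv.symm_apply_apply, Equiv.symm_apply_apply]
  rfl

theorem dsum_r (ρ : G →* Matrix (Fin N) (Fin N) Ω) (τ : G →* Matrix (Fin n) (Fin n) Ω) (g : G)
    (i j : Fin n) : dsum ρ τ g (finSumFinEquiv (Sum.inr i)) (finSumFinEquiv (Sum.inr j)) = τ g i j := by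
  change (Matrix.reindex finSumFinEquiv finSumFinEquiv (Matrix.fromBlocks (ρ g) 0 0 (τ g))) _ _ = _
  rw [Matrix.reindex_apply, Matrix.submatrix_apply, Equiv.symm_apply_apply, Equiv.symm_apply_apply]
  rfl

theorem PA_l (ρ : G →* Matrix (Fin N) (Fin N) Ω) (τ : G →* Matrix (Fin n) (Fin n) Ω) (F : G → Ω)
    (hF : F ∈ PA ρ) : F ∈ PA (dsum ρ τ) := by
  obtain ⟨P, hP⟩ := (mem_PA _ F).mp hF
  rw [mem_PA]
  refine ⟨MvPolynomial.rename (fun x : Fin N × Fin N => (finSumFinEquiv (Sum.inl x.1), finSumFinEquiv (Sum.inl x.2))) P,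
    fun g => ?_⟩
  have e : (ent (dsum ρ τ) g) ∘ (fun x : Fin N × Fin N =>
      ((finSumFinEquiv (Sum.inl x.1) : Fin (N + n)), (finSumFinEquiv (Sum.inl x.2) : Fin (N + n)))) = ent ρ g := by
    funext x
    exact dsum_l ρ τ g x.1 x.2
  rw [hP, MvPolynomial.eval_rename, e]

theorem PA_r (ρ : G →* Matrix (Fin N) (Fin N) Ω) (τ : G →* Matrix (Fin n) (Fin n) Ω) (F : G → Ω)
    (hF : F ∈ PA τ) : F ∈ PA (dsum ρ τ) := by
  obtain ⟨P, hP⟩ := (mem_PA _ F).mp hF
  rw [mem_PA]
  refine ⟨MvPolynomial.rename (fun x : Fin n × Fin n => (finSumFinEquiv (Sum.inr x.1), finSumFinEquiv (Sum.inr x.2))) P,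
    fun g => ?_⟩
  have e : (ent (dsum ρ τ) g) ∘ (fun x : Fin n × Fin n =>
      ((finSumFinEquiv (Sum.inr x.1) : Fin (N + n)), (finSumFinEquiv (Sum.inr x.2) : Fin (N + n)))) = ent τ g := by
    funext x
    exact dsum_r ρ τ g x.1 x.2
  rw [hP, MvPolynomial.eval_rename, e]

theorem dsum_cont [TopologicalSpace G] [TopologicalSpace Ω] (ρ : G →* Matrix (Fin N) (Fin N) Ω)
    (τ : G →* Matrix (Fin n) (Fin n) Ω) (hρ : Continuous ρ) (hτ : Continuous τ) :
    Continuous (dsum ρ τ) := by
  refine continuous_matrix fun i j => ?_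
  obtain ⟨i, rfl⟩ := finSumFinEquiv.surjective i
  obtain ⟨j, rfl⟩ := finSumFinEquiv.surjective j
  have h0 : ∀ i j, (fun g => dsum ρ τ g (finSumFinEquiv i) (finSumFinEquiv j)) =
      fun g => Matrix.fromBlocks (ρ g) 0 0 (τ g) i j := by
    intro i j
    funext g
    change (Matrix.reindex finSumFinEquiv finSumFinEquiv (Matrix.fromBlocks (ρ g) 0 0 (τ g))) _ _ = _
    rw [Matrix.reindex_apply, Matrix.submatrix_apply, Equiv.symm_apply_apply, Equiv.symm_apply_apply]
  rw [h0]
  rcases i with i | i <;> rcases j with j | j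
  · exact (continuous_apply_apply i j).comp hρ
  · exact continuous_const
  · exact continuous_const
  · exact (continuous_apply_apply i j).comp hτ

end pair

section mult

variable {n : ℕ}

/-- the derivatives of the characteristic polynomial of a power at `1` -/
noncomputable def hder {R : Type*} [CommRing R] (m N : ℕ) (M : Matrix (Fin n) (Fin n) R) : R :=
  (derivative^[m] (M ^ N).charpoly).eval 1

theorem hder_map {R S : Type*} [CommRing R] [CommRing S] (f : R →+* S) (m N : ℕ)
    (M : Matrix (Fin n) (Fin n) R) : hder m N (M.map f) = f (hder m N M) := by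
  unfold hder
  have e : (M.map f) ^ N = (M ^ N).map f := (map_pow (f.mapMatrix (m := Fin n)) M N).symm
  rw [e, Matrix.charpoly_map, iterate_derivative_map, ← map_one f, eval_map_apply]

variable {G Ω : Type*} [Group G] [Field Ω] (τ : G →* Matrix (Fin n) (Fin n) Ω)

theorem hder_mem (m N : ℕ) : (fun g => hder m N (τ g)) ∈ PA τ := by
  let M' : Matrix (Fin n) (Fin n) (PA τ) := fun i j => ⟨_, entry_mem τ i j⟩
  have h2 : (fun g => hder m N (τ g)) = ((hder m N M' : PA τ) : G → Ω) := by
    funext g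
    let ev : (PA τ) →+* Ω := (Pi.evalRingHom (fun _ : G => Ω) g).comp (PA τ).val.toRingHom
    have h3 : M'.map ev = τ g := rfl
    have h4 := hder_map ev m N M'
    rw [h3] at h4
    exact h4
  rw [h2]
  exact (hder m N M').2

theorem hder_conj (m N : ℕ) (σ t : G) : hder m N (τ (t * σ * t⁻¹)) = hder m N (τ σ) := by
  unfold hder
  rw [charpoly_pow_conj]

/-- the multiplicity is at most `r` -/
theorem mult_le_iff {F : Type*} [Field F] [CharZero F] (r N : ℕ) (M : Matrix (Fin n) (Fin n) F) :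
    (M ^ N).charpoly.rootMultiplicity 1 ≤ r ↔ ∃ m ≤ r, hder m N M ≠ 0 := by
  have h := lt_rootMultiplicity_iff_isRoot_iterate_derivative (p := (M ^ N).charpoly) (t := 1) (n := r)
    (Matrix.charpoly_monic _).ne_zero
  rw [← not_lt, h]
  push Not
  rfl

/-- determinants of polynomial functions are polynomial functions -/
theorem det_mem {r : ℕ} (A : Subalgebra Ω (G → Ω)) (F : Fin r → Fin r → G → Ω) (hF : ∀ a b, F a b ∈ A) :
    (fun g => (Matrix.of fun a b => F a b g).det) ∈ A := by
  let M' : Matrix (Fin r) (Fin r) A := fun a b => ⟨_, hF a b⟩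
  have h2 : (fun g => (Matrix.of fun a b => F a b g).det) = ((M'.det : A) : G → Ω) := by
    funext g
    let ev : A →+* Ω := (Pi.evalRingHom (fun _ : G => Ω) g).comp A.val.toRingHom
    have h3 : ev.mapMatrix M' = Matrix.of fun a b => F a b g := rfl
    have h4 := RingHom.map_det ev M'
    rw [h3] at h4
    exact h4.symm
  rw [h2]
  exact M'.det.2

end mult

end Pool.Agent.N144.OF
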