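import Pool.Agent.N144.OF.Gen

/-!
# The strong Tate conjecture from one reduction
-/

set_option autoImplicit false
set_option linter.all false

namespace Pool.Agent.N144.OF

open Polynomial

section lin

variable {F V : Type*} [Field F] [AddCommGroup V] [Module F V]

theorem geom_apply (g : Module.End F V) (e N : ℕ) :
    (g ^ e - 1) ^ N = (∑ i ∈ Finset.range e, g ^ i) ^ N * (g - 1) ^ N := by
  rw [← geom_sum_mul, Commute.mul_pow]
  refine Commute.sum_left _ _ _ fun i _ => ?_
  exact ((Commute.refl g).pow_left i).sub_right (Commute.one_right _)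

theorem gen_le_pow (g : Module.End F V) (e : ℕ) :
    g.maxGenEigenspace 1 ≤ (g ^ e).maxGenEigenspace 1 := by
  intro x hx
  rw [Module.End.mem_maxGenEigenspace] at hx ⊢
  obtain ⟨N, hN⟩ := hx
  refine ⟨N, ?_⟩
  rw [one_smul] at hN ⊢
  rw [geom_apply, Module.End.mul_apply, hN, map_zero]

/-- a generalised fixed vector with a finite orbit is fixed -/
theorem fixed_of_gen [CharZero F] (g : Module.End F V) (x : V) (hx : x ∈ g.maxGenEigenspace 1) {m : ℕ}
    (hm : 0 < m) (h : (g ^ m) x = x) : g x = x := by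
  rw [Module.End.mem_maxGenEigenspace] at hx
  obtain ⟨N, hN⟩ := hx
  rw [one_smul] at hN
  let s : F[X] := ∑ i ∈ Finset.range m, X ^ i
  have hs1 : s.eval 1 ≠ 0 := by
    simp [s, eval_finset_sum]
    exact hm.ne'
  have hco : IsCoprime ((X - C 1 : F[X]) ^ N) s := by
    apply IsCoprime.pow_left
    rw [(irreducible_X_sub_C (1 : F)).coprime_iff_not_dvd, dvd_iff_isRoot]
    exact hs1
  obtain ⟨a, b, hab⟩ := hco
  set u := g x - x with hu
  have hN' : ((g - 1) ^ N) u = 0 := by
    have : u = (g - 1) x := by simp [hu]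
    rw [this, ← Module.End.mul_apply, ← pow_succ, pow_succ', Module.End.mul_apply, hN, map_zero]
  have hs : (aeval g s) u = 0 := by
    have e1 : u = (g - 1) x := by simp [hu]
    have e2 : aeval g s = ∑ i ∈ Finset.range m, g ^ i := by simp [s]
    rw [e1, e2, ← Module.End.mul_apply, geom_sum_mul]
    simp [h]
  have h2 := congrArg (fun p : F[X] => (aeval g p) u) hab
  simp only [map_add, map_mul, map_pow, map_sub, aeval_X, aeval_C, map_one, LinearMap.add_apply,
    Module.End.mul_apply, Module.End.one_apply] at h2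
  rw [hN', map_zero, zero_add] at h2
  rw [hs, map_zero] at h2
  exact (sub_eq_zero.mp h2.symm)

end lin

/-- **strong Tate conjecture**: linear algebra -/
theorem strong_tate {F : Type} [Field F] [CharZero F] {b r : ℕ} (B : Matrix (Fin b) (Fin b) F)
    (P : ℚ[X]) (hP : P ≠ 0) (hd : P.natDegree ≤ b) (hB : B.charpoly = P.map (algebraMap ℚ F))
    (hr : unity P ≤ r) (D : Submodule F (Fin b → F))
    (hD : ∀ x ∈ D, ∃ k, 0 < k ∧ (Matrix.toLin' B ^ k) x = x)
    (z : Fin r → Fin b → F) (hz : ∀ a, z a ∈ D) (φ : Fin r → Module.Dual F (Fin b → F))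
    (G : Matrix (Fin r) (Fin r) ℚ) (hG : G.det ≠ 0) (hφ : ∀ a c, φ c (z a) = algebraMap ℚ F (G a c)) :
    Module.finrank F D = r ∧ unity P = r ∧
    (∀ k : ℕ, 0 < k → ∀ x ∈ Module.End.maxGenEigenspace (Matrix.toLin' B ^ k) 1,
      x ∈ D ∧ (Matrix.toLin' B ^ k) x = x) ∧
    ∀ x ∈ D, (∀ c, φ c x = 0) → x = 0 := by
  set f := Matrix.toLin' B with hf
  have hdim : ∀ k : ℕ, 0 < k → Module.finrank F (Module.End.maxGenEigenspace (f ^ k) 1) = cnt ℂ k P := by
    intro k hk
    rw [LinearMap.finrank_maxGenEigenspace_eq, hf, ← Matrix.toLin'_pow, Matrix.charpoly_toLin',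
      mult_pow B P hB k hk.ne']
  set W := Module.End.maxGenEigenspace (f ^ expo b) 1 with hW
  have hWd : Module.finrank F W = unity P := by
    rw [hdim _ (expo_pos b), unity_eq hP hd]
  have hle : ∀ k : ℕ, 0 < k → Module.End.maxGenEigenspace (f ^ k) 1 ≤ W := by
    intro k hk
    have h1 : W = Module.End.maxGenEigenspace (f ^ (k * expo b)) 1 := by
      apply Submodule.eq_of_le_of_finrank_le
      · have := gen_le_pow (f ^ expo b) k
        rwa [← pow_mul, mul_comm] at this
      · rw [hWd, hdim _ (Nat.mul_pos hk (expo_pos b)), unity_eq hP hd]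
        exact cnt_le hP hd (Nat.mul_pos hk (expo_pos b))
    rw [h1, pow_mul]
    exact gen_le_pow (f ^ k) (expo b)
  have hDW : D ≤ W := by
    intro x hx
    obtain ⟨k, hk, h⟩ := hD x hx
    apply hle k hk
    refine Module.End.genEigenspace_le_maximal _ _ 1 ?_
    have : x ∈ Module.End.eigenspace (f ^ k) 1 := by
      rw [Module.End.mem_eigenspace_iff, one_smul]
      exact h
    exact this
  -- the evaluation map
  let Φ : D →ₗ[F] (Fin r → F) := LinearMap.pi fun c => (φ c) ∘ₗ D.subtype
  have hG' : IsUnit (G.map (algebraMap ℚ F)).det := by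
    have h1 : (G.map (algebraMap ℚ F)).det = algebraMap ℚ F G.det := (RingHom.map_det _ _).symm
    rw [h1, isUnit_iff_ne_zero]
    exact (map_ne_zero_iff _ (algebraMap ℚ F).injective).mpr hG
  have hsurj : Function.Surjective Φ := by
    intro y
    set G' := G.map (algebraMap ℚ F) with hG''
    let c : Fin r → F := Matrix.vecMul y G'⁻¹
    refine ⟨∑ a, c a • ⟨z a, hz a⟩, ?_⟩
    rw [map_sum]
    funext i
    rw [Finset.sum_apply]
    have h1 : ∀ a, (Φ (c a • ⟨z a, hz a⟩)) i = c a * G' a i := by
      intro a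
      rw [map_smul, Pi.smul_apply, smul_eq_mul]
      congr 1
      exact hφ a i
    simp only [h1]
    have h2 : Matrix.vecMul c G' = y := by
      change Matrix.vecMul (Matrix.vecMul y G'⁻¹) G' = y
      rw [Matrix.vecMul_vecMul, Matrix.nonsing_inv_mul _ hG', Matrix.vecMul_one]
    have h3 := congrFun h2 i
    rw [Matrix.vecMul, dotProduct] at h3
    exact h3
  have hr1 : r ≤ Module.finrank F D := by
    have := LinearMap.finrank_le_finrank_of_surjective (f := Φ) hsurj
    rwa [Module.finrank_fin_fun] at this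
  have hr2 : Module.finrank F D ≤ unity P := by
    rw [← hWd]
    exact Submodule.finrank_mono hDW
  have hfr : Module.finrank F D = r := le_antisymm (hr2.trans hr) hr1
  have hu : unity P = r := le_antisymm hr (hr1.trans hr2)
  have hDW' : D = W := Submodule.eq_of_le_of_finrank_le hDW (by rw [hWd, hu, hfr])
  refine ⟨hfr, hu, ?_, ?_⟩
  · intro k hk x hx
    have hxD : x ∈ D := by
      rw [hDW']
      exact hle k hk hx
    refine ⟨hxD, ?_⟩
    obtain ⟨m, hm, h⟩ := hD x hxD
    refine fixed_of_gen (f ^ k) x hx hm ?_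
    rw [← pow_mul, mul_comm, pow_mul]
    -- (f ^ m) ^ k x = x
    have : ∀ j : ℕ, ((f ^ m) ^ j) x = x := by
      intro j
      induction j with
      | zero => simp
      | succ j ih => rw [pow_succ, Module.End.mul_apply, h, ih]
    exact this k
  · have hinj : Function.Injective Φ :=
      (LinearMap.injective_iff_surjective_of_finrank_eq_finrank
        (by rw [hfr, Module.finrank_fin_fun])).mpr hsurj
    intro x hx h
    have h1 : Φ ⟨x, hx⟩ = 0 := by
      funext c
      exact h c
    have h2 : (⟨x, hx⟩ : D) = 0 := hinj (by rw [h1, map_zero])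
    exact congrArg Subtype.val h2

end Pool.Agent.N144.OF
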