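import Pool.Agent.N144.OF.Gen2

/-!
# The strong Tate conjecture from one reduction: densities
-/

set_option autoImplicit false
set_option linter.all false

namespace Pool.Agent.N144.OF

open Topology Filter NumberField IsDedekindDomain Polynomial
open Pool.Agent.W401.Cheb Pool.Agent.W528.Ord

variable {K : Type} [Field K] [NumberField K] {N b r : ℕ}

/-- a polynomial in the matrix entries -/
noncomputable def gent {G Ω : Type*} [Group G] [Field Ω] (ρ : G →* Matrix (Fin N) (Fin N) Ω)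
    (F : MvPolynomial (Fin N × Fin N) Ω) (g : G) : Ω :=
  MvPolynomial.eval (fun x => ρ g x.1 x.2) F

/-- the matrix of intersection numbers as a function -/
noncomputable def gram {G Ω : Type*} [Group G] [Field Ω] (ρ : G →* Matrix (Fin N) (Fin N) Ω)
    (F : Fin r → Fin r → MvPolynomial (Fin N × Fin N) Ω) (g : G) : Matrix (Fin r) (Fin r) Ω :=
  Matrix.of fun a c => gent ρ (F a c) g

theorem gram_ent {G Ω : Type*} [Group G] [Field Ω] (ρ : G →* Matrix (Fin N) (Fin N) Ω)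
    (F : MvPolynomial (Fin N × Fin N) Ω) : (fun g : G => gent ρ F g⁻¹) ∈ PA (dual ρ) := by
  rw [mem_PA]
  refine ⟨MvPolynomial.rename Prod.swap F, fun g => ?_⟩
  rw [MvPolynomial.eval_rename]
  rfl

theorem gram_mem {G Ω : Type*} [Group G] [Field Ω] (ρ : G →* Matrix (Fin N) (Fin N) Ω)
    (F : Fin r → Fin r → MvPolynomial (Fin N × Fin N) Ω) :
    (fun g : G => (gram ρ F g⁻¹).det) ∈ PA (dual ρ) := by
  let H : Fin r → Fin r → G → Ω := fun a c g => gent ρ (F a c) g⁻¹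
  have hH : ∀ a c, H a c ∈ PA (dual ρ) := fun a c => gram_ent ρ (F a c)
  have h := det_mem (PA (dual ρ)) H hH
  exact h

/-- the strong Tate statement for a Frobenius matrix `B` and the intersection matrix `G` -/
def Strong {F : Type} [Field F] [Algebra ℚ F] (B : Matrix (Fin b) (Fin b) F)
    (G : Matrix (Fin r) (Fin r) ℚ) : Prop :=
  ∀ (D : Submodule F (Fin b → F)) (z : Fin r → Fin b → F) (φ : Fin r → Module.Dual F (Fin b → F)),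
    (∀ x ∈ D, ∃ k, 0 < k ∧ (Matrix.toLin' B ^ k) x = x) → (∀ a, z a ∈ D) →
    (∀ a c, φ c (z a) = algebraMap ℚ F (G a c)) →
      Module.finrank F D = r ∧
      (∀ k : ℕ, 0 < k → ∀ x ∈ Module.End.maxGenEigenspace (Matrix.toLin' B ^ k) 1,
        x ∈ D ∧ (Matrix.toLin' B ^ k) x = x) ∧
      ∀ x ∈ D, (∀ c, φ c x = 0) → x = 0

/-- at the place `v` -/
def StrongAt (τ : ∀ (ℓ : ℕ) [Fact ℓ.Prime], GK K →* Matrix (Fin b) (Fin b) ℚ_[ℓ])
    (G : HeightOneSpectrum (𝓞 K) → Matrix (Fin r) (Fin r) ℚ) (v : HeightOneSpectrum (𝓞 K)) : Prop :=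
  ∀ (ℓ : ℕ) [Fact ℓ.Prime], (ℓ : 𝓞 K) ∉ v.asIdeal → ∀ σ : GK K, IsFrob v σ →
    Strong (τ ℓ σ⁻¹) (G v)

theorem strongAt_of {S : Set (HeightOneSpectrum (𝓞 K))} {P : HeightOneSpectrum (𝓞 K) → ℚ[X]}
    {τ : ∀ (ℓ : ℕ) [Fact ℓ.Prime], GK K →* Matrix (Fin b) (Fin b) ℚ_[ℓ]}
    (hτ : ∀ (ℓ : ℕ) [Fact ℓ.Prime], Comp S P ℓ (τ ℓ))
    (G : HeightOneSpectrum (𝓞 K) → Matrix (Fin r) (Fin r) ℚ) {v : HeightOneSpectrum (𝓞 K)} (hv : v ∉ S)
    (hG : (G v).det ≠ 0) (h : cnt ℂ (expo b) (P v) ≤ r) : StrongAt τ G v := by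
  intro ℓ _ hℓ σ hσ D z φ h1 h2 h3
  obtain ⟨h0, hd⟩ := deg_P hτ ℓ hv hℓ
  have := strong_tate (τ ℓ σ⁻¹) (P v) h0 hd ((hτ ℓ).2 v hv hℓ σ hσ)
    (by rw [unity_eq h0 hd]; exact h) D h1 z h2 φ (G v) hG h3
  exact ⟨this.1, this.2.2.1, this.2.2.2⟩

/-- **from one reduction** -/
theorem strong_main {S : Set (HeightOneSpectrum (𝓞 K))} (hS : S.Finite)
    {P : HeightOneSpectrum (𝓞 K) → ℚ[X]}
    {τ : ∀ (ℓ : ℕ) [Fact ℓ.Prime], GK K →* Matrix (Fin b) (Fin b) ℚ_[ℓ]}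
    (hτ : ∀ (ℓ : ℕ) [Fact ℓ.Prime], Comp S P ℓ (τ ℓ)) (ℓ₀ : ℕ) [Fact ℓ₀.Prime]
    (ρ : GK K →* Matrix (Fin N) (Fin N) ℚ_[ℓ₀]) (hρ : Continuous ρ)
    (F : Fin r → Fin r → MvPolynomial (Fin N × Fin N) ℚ_[ℓ₀])
    (hcl : ∀ σ t : GK K, gram ρ F (t * σ * t⁻¹) = gram ρ F σ)
    (G : HeightOneSpectrum (𝓞 K) → Matrix (Fin r) (Fin r) ℚ)
    (hG : ∀ v ∉ S, (ℓ₀ : 𝓞 K) ∉ v.asIdeal → ∀ σ : GK K, IsFrob v σ →
      gram ρ F σ⁻¹ = (G v).map (algebraMap ℚ ℚ_[ℓ₀]))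
    (U : Subgroup (GK K)) [hN : U.Normal] (hU : IsOpen (U : Set (GK K)))
    (hmin : IsMin (PA (dsum (dual ρ) (dual (τ ℓ₀)))) U)
    (v₀ : HeightOneSpectrum (𝓞 K)) (hv₀ : v₀ ∉ S) (hℓv : (ℓ₀ : 𝓞 K) ∉ v₀.asIdeal)
    (h0 : unity (P v₀) ≤ r) (σ₀ : GK K) (hσ₀ : IsFrob v₀ σ₀) (k : ℕ) (hk : 0 < k)
    (hdet : (gram ρ F (σ₀⁻¹ ^ k)).det ≠ 0) :
    Tendsto (dens fun v => (∃ σ ∈ cls U (σ₀ ^ k), IsFrob v σ) ∧ ¬ StrongAt τ G v) atTop (𝓝 0) ∧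
    ∀ ε : ℝ, 0 < ε → ∀ᶠ N : ℕ in atTop, 1 / (U.index : ℝ) - ε ≤ dens (StrongAt τ G) N := by
  have hT : (S ∪ {v : HeightOneSpectrum (𝓞 K) | (ℓ₀ : 𝓞 K) ∈ v.asIdeal}).Finite :=
    hS.union (bad_finite ℓ₀ (Fact.out (p := ℓ₀.Prime)).ne_zero)
  have hmul : ∀ v ∉ S, (ℓ₀ : 𝓞 K) ∉ v.asIdeal → ∀ σ, IsFrob v σ → ∀ k, 0 < k →
      ((dual (τ ℓ₀) σ) ^ k).charpoly.rootMultiplicity 1 = cnt ℂ k (P v) := by
    intro v hv hℓ σ hσ k hk
    refine mult_pow _ (P v) ?_ k hk.ne'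
    rw [dual_charpoly, (hτ ℓ₀).2 v hv hℓ σ hσ]
  obtain ⟨hP0, hPd⟩ := deg_P hτ ℓ₀ hv₀ hℓv
  have h1 : ((dual (τ ℓ₀) (σ₀ ^ k)) ^ expo b).charpoly.rootMultiplicity 1 ≤ r := by
    rw [map_pow, ← pow_mul, hmul v₀ hv₀ hℓv σ₀ hσ₀ _ (Nat.mul_pos hk (expo_pos b))]
    refine (cnt_le hP0 hPd (Nat.mul_pos hk (expo_pos b))).trans ?_
    rw [← unity_eq hP0 hPd]
    exact h0
  obtain ⟨m, hm, hne⟩ := (mult_le_iff r (expo b) (dual (τ ℓ₀) (σ₀ ^ k))).mp h1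
  let Fn : GK K → ℚ_[ℓ₀] := fun g => (gram ρ F g⁻¹).det * hder m (expo b) (dual (τ ℓ₀) g)
  refine law (dsum (dual ρ) (dual (τ ℓ₀))) (dsum_cont _ _ (dual_cont _ hρ) (dual_cont _ (hτ ℓ₀).1))
    U hU hmin Fn ?_ ?_ (σ₀ ^ k) ?_ (StrongAt τ G) _ hT ?_
  · exact (PA _).mul_mem (PA_l _ _ _ (gram_mem ρ F)) (PA_r _ _ _ (hder_mem _ m (expo b)))
  · intro σ t
    change (gram ρ F (t * σ * t⁻¹)⁻¹).det * hder m (expo b) (dual (τ ℓ₀) (t * σ * t⁻¹)) = _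
    have e : (t * σ * t⁻¹)⁻¹ = t * σ⁻¹ * t⁻¹ := by group
    rw [e, hcl, hder_conj]
  · change (gram ρ F (σ₀ ^ k)⁻¹).det * hder m (expo b) (dual (τ ℓ₀) (σ₀ ^ k)) ≠ 0
    refine mul_ne_zero ?_ hne
    rw [← inv_pow]
    exact hdet
  · intro v hv σ hσ hne'
    simp only [Set.mem_union, Set.mem_setOf_eq, not_or] at hv
    have h2 : (gram ρ F σ⁻¹).det ≠ 0 := left_ne_zero_of_mul hne'
    have h3 : hder m (expo b) (dual (τ ℓ₀) σ) ≠ 0 := right_ne_zero_of_mul hne'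
    refine strongAt_of hτ G hv.1 ?_ ?_
    · intro h
      apply h2
      rw [hG v hv.1 hv.2 σ hσ]
      have h4 : ((G v).map (algebraMap ℚ ℚ_[ℓ₀])).det = algebraMap ℚ ℚ_[ℓ₀] (G v).det :=
        (RingHom.map_det _ _).symm
      rw [h4, h, map_zero]
    · rw [← hmul v hv.1 hv.2 σ hσ _ (expo_pos b)]
      exact (mult_le_iff r (expo b) _).mpr ⟨m, hm, h3⟩

/-- connectedness for the pair -/
theorem pair_min {G Ω : Type*} [Group G] [TopologicalSpace G] [Field Ω]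
    (ρ : G →* Matrix (Fin N) (Fin N) Ω) (τ : G →* Matrix (Fin b) (Fin b) Ω)
    (h : ∀ (F : MvPolynomial ((Fin N × Fin N) ⊕ (Fin b × Fin b)) Ω) (U : Subgroup G),
      IsOpen (U : Set G) →
      (∀ u ∈ U, MvPolynomial.eval (Sum.elim (fun x => ρ u x.1 x.2) (fun x => τ u x.1 x.2)) F = 0) →
      ∀ g, MvPolynomial.eval (Sum.elim (fun x => ρ g x.1 x.2) (fun x => τ g x.1 x.2)) F = 0) :
    IsMin (PA (dsum (dual ρ) (dual τ))) ⊤ := by
  intro U _ hU F hF h0 u _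
  obtain ⟨P, hP⟩ := (mem_PA _ F).mp hF
  let q : Fin N ⊕ Fin b → Fin N ⊕ Fin b → MvPolynomial ((Fin N × Fin N) ⊕ (Fin b × Fin b)) Ω :=
    fun i j => match i, j with
      | Sum.inl i, Sum.inl j => MvPolynomial.X (Sum.inl (j, i))
      | Sum.inr i, Sum.inr j => MvPolynomial.X (Sum.inr (j, i))
      | _, _ => 0
  let P' := MvPolynomial.bind₁ (fun x : Fin (N + b) × Fin (N + b) =>
    q (finSumFinEquiv.symm x.1) (finSumFinEquiv.symm x.2)) P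
  have hent : ∀ (g : G) (x : Fin (N + b) × Fin (N + b)), ent (dsum (dual ρ) (dual τ)) g x =
      MvPolynomial.eval (Sum.elim (fun x => ρ g⁻¹ x.1 x.2) (fun x => τ g⁻¹ x.1 x.2))
        (q (finSumFinEquiv.symm x.1) (finSumFinEquiv.symm x.2)) := by
    intro g x
    obtain ⟨i, j⟩ := x
    obtain ⟨i, rfl⟩ := finSumFinEquiv.surjective i
    obtain ⟨j, rfl⟩ := finSumFinEquiv.surjective j
    have e : ent (dsum (dual ρ) (dual τ)) g (finSumFinEquiv i, finSumFinEquiv j) =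
        Matrix.fromBlocks (dual ρ g) 0 0 (dual τ g) i j := by
      change (Matrix.reindex finSumFinEquiv finSumFinEquiv (Matrix.fromBlocks (dual ρ g) 0 0 (dual τ g))) _ _ = _
      rw [Matrix.reindex_apply, Matrix.submatrix_apply, Equiv.symm_apply_apply, Equiv.symm_apply_apply]
    rw [e]
    simp only [Equiv.symm_apply_apply]
    rcases i with i | i <;> rcases j with j | j
    · simp [q, dual_apply]
    · simp [q]
    · simp [q]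
    · simp [q, dual_apply]
  have key : ∀ g : G, MvPolynomial.eval (Sum.elim (fun x => ρ g x.1 x.2) (fun x => τ g x.1 x.2)) P' =
      F g⁻¹ := by
    intro g
    rw [hP]
    have e2 : ent (dsum (dual ρ) (dual τ)) g⁻¹ = fun x : Fin (N + b) × Fin (N + b) =>
        MvPolynomial.eval (Sum.elim (fun x => ρ g x.1 x.2) (fun x => τ g x.1 x.2))
          (q (finSumFinEquiv.symm x.1) (finSumFinEquiv.symm x.2)) := by
      funext x
      have := hent g⁻¹ x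
      rwa [inv_inv] at this
    rw [e2]
    change MvPolynomial.eval _ (MvPolynomial.bind₁ _ P) = _
    rw [← MvPolynomial.coe_aeval_eq_eval, MvPolynomial.coe_aeval_eq_eval]
    exact MvPolynomial.eval₂Hom_bind₁ _ _ _ _
  have h1 := h P' U hU (by
    intro v hv
    rw [key]
    exact h0 _ (U.inv_mem hv)) u⁻¹
  rw [key, inv_inv] at h1
  exact h1

end Pool.Agent.N144.OF
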