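import Pool.Agent.N144.OF.Gen3

/-!
# The law for any property which follows from the two conditions; the crystalline case
-/

set_option autoImplicit false
set_option linter.all false

namespace Pool.Agent.N144.OF

open Topology Filter NumberField IsDedekindDomain Polynomial
open Pool.Agent.W401.Cheb Pool.Agent.W528.Ord

variable {K : Type} [Field K] [NumberField K] {N b r : ℕ}

/-- **from one reduction**, for any property which follows from the two conditions -/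
theorem strong_law {S : Set (HeightOneSpectrum (𝓞 K))} (hS : S.Finite)
    {P : HeightOneSpectrum (𝓞 K) → ℚ[X]}
    {τ : ∀ (ℓ : ℕ) [Fact ℓ.Prime], GK K →* Matrix (Fin b) (Fin b) ℚ_[ℓ]}
    (hτ : ∀ (ℓ : ℕ) [Fact ℓ.Prime], Comp S P ℓ (τ ℓ)) (ℓ₀ : ℕ) [Fact ℓ₀.Prime]
    (ρ : GK K →* Matrix (Fin N) (Fin N) ℚ_[ℓ₀]) (hρ : Continuous ρ)
    (F : Fin r → Fin r → MvPolynomial (Fin N × Fin N) ℚ_[ℓ₀])
    (hcl : ∀ σ t : GK K, gram ρ F (t * σ * t⁻¹) = gram ρ F σ)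
    (G : HeightOneSpectrum (𝓞 K) → Matrix (Fin r) (Fin r) ℚ)
    (hG : ∀ v ∉ S, (ℓ₀ : 𝓞 K) ∉ v.asIdeal → ∀ σ : GK K, IsFrob v σ →
      gram ρ F σ⁻¹ = (G v).map (algebraMap ℚ ℚ_[ℓ₀]))
    (U : Subgroup (GK K)) [hN : U.Normal] (hU : IsOpen (U : Set (GK K)))
    (hmin : IsMin (PA (dsum (dual ρ) (dual (τ ℓ₀)))) U)
    (Good : HeightOneSpectrum (𝓞 K) → Prop)
    (hgood : ∀ v ∉ S, (G v).det ≠ 0 → cnt ℂ (expo b) (P v) ≤ r → Good v)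
    (v₀ : HeightOneSpectrum (𝓞 K)) (hv₀ : v₀ ∉ S) (hℓv : (ℓ₀ : 𝓞 K) ∉ v₀.asIdeal)
    (h0 : unity (P v₀) ≤ r) (σ₀ : GK K) (hσ₀ : IsFrob v₀ σ₀) (k : ℕ) (hk : 0 < k)
    (hdet : (gram ρ F (σ₀⁻¹ ^ k)).det ≠ 0) :
    Tendsto (dens fun v => (∃ σ ∈ cls U (σ₀ ^ k), IsFrob v σ) ∧ ¬ Good v) atTop (𝓝 0) ∧
    ∀ ε : ℝ, 0 < ε → ∀ᶠ N : ℕ in atTop, 1 / (U.index : ℝ) - ε ≤ dens Good N := by
  have hT : (S ∪ {v : HeightOneSpectrum (𝓞 K) | (ℓ₀ : 𝓞 K) ∈ v.asIdeal}).Finite :=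
    hS.union (bad_finite ℓ₀ (Fact.out (p := ℓ₀.Prime)).ne_zero)
  have hmul : ∀ v ∉ S, (ℓ₀ : 𝓞 K) ∉ v.asIdeal → ∀ σ, IsFrob v σ → ∀ k, 0 < k →
      ((dual (τ ℓ₀) σ) ^ k).charpoly.rootMultiplicity 1 = cnt ℂ k (P v) := by
    intro v hv hℓ σ hσ k hk
    refine mult_pow _ (P v) ?_ k hk.ne'
    rw [dual_charpoly, (hτ ℓ₀).2 v hv hℓ σ hσ]
  obtain ⟨hP0, hPd⟩ := deg_P hτ ℓ₀ hv₀ hℓv
  have h1 : ((dual (τ ℓ₀) (σ₀ ^ k)) ^ expo b).charpoly.rootMultiplicity 1 ≤ r := by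
    rw [map_pow, ← pow_mul, hmul v₀ hv₀ hℓv σ₀ hσ₀ _ (Nat.mul_pos hk (expo_pos b))]
    refine (cnt_le hP0 hPd (Nat.mul_pos hk (expo_pos b))).trans ?_
    rw [← unity_eq hP0 hPd]
    exact h0
  obtain ⟨m, hm, hne⟩ := (mult_le_iff r (expo b) (dual (τ ℓ₀) (σ₀ ^ k))).mp h1
  let Fn : GK K → ℚ_[ℓ₀] := fun g => (gram ρ F g⁻¹).det * hder m (expo b) (dual (τ ℓ₀) g)
  refine law (dsum (dual ρ) (dual (τ ℓ₀))) (dsum_cont _ _ (dual_cont _ hρ) (dual_cont _ (hτ ℓ₀).1))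
    U hU hmin Fn ?_ ?_ (σ₀ ^ k) ?_ Good _ hT ?_
  · exact (PA _).mul_mem (PA_l _ _ _ (gram_mem ρ F)) (PA_r _ _ _ (hder_mem _ m (expo b)))
  · intro σ t
    change (gram ρ F (t * σ * t⁻¹)⁻¹).det * hder m (expo b) (dual (τ ℓ₀) (t * σ * t⁻¹)) = _
    have e : (t * σ * t⁻¹)⁻¹ = t * σ⁻¹ * t⁻¹ := by group
    rw [e, hcl, hder_conj]
  · change (gram ρ F (σ₀ ^ k)⁻¹).det * hder m (expo b) (dual (τ ℓ₀) (σ₀ ^ k)) ≠ 0
    refine mul_ne_zero ?_ hne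
    rw [← inv_pow]
    exact hdet
  · intro v hv σ hσ hne'
    simp only [Set.mem_union, Set.mem_setOf_eq, not_or] at hv
    have h2 : (gram ρ F σ⁻¹).det ≠ 0 := left_ne_zero_of_mul hne'
    have h3 : hder m (expo b) (dual (τ ℓ₀) σ) ≠ 0 := right_ne_zero_of_mul hne'
    refine hgood v hv.1 ?_ ?_
    · intro h
      apply h2
      rw [hG v hv.1 hv.2 σ hσ]
      have h4 : ((G v).map (algebraMap ℚ ℚ_[ℓ₀])).det = algebraMap ℚ ℚ_[ℓ₀] (G v).det :=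
        (RingHom.map_det _ _).symm
      rw [h4, h, map_zero]
    · rw [← hmul v hv.1 hv.2 σ hσ _ (expo_pos b)]
      exact (mult_le_iff r (expo b) _).mpr ⟨m, hm, h3⟩

/-- the strong Tate statement for all Frobenius matrices with the polynomial `P` -/
theorem strong_all {F : Type} [Field F] [CharZero F] (B : Matrix (Fin b) (Fin b) F)
    (P : ℚ[X]) (hB : B.charpoly = P.map (algebraMap ℚ F)) (h : cnt ℂ (expo b) P ≤ r)
    (G : Matrix (Fin r) (Fin r) ℚ) (hG : G.det ≠ 0) : Strong B G := by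
  have hd : P.natDegree = b := by
    have h1 := Matrix.charpoly_natDegree_eq_dim B
    rwa [hB, natDegree_map, Fintype.card_fin] at h1
  have hP : P ≠ 0 := by
    intro h0
    have h2 := (Matrix.charpoly_monic B).ne_zero
    rw [hB, h0, Polynomial.map_zero] at h2
    exact h2 rfl
  intro D z φ h1 h2 h3
  have := strong_tate B P hP hd.le hB (by rw [unity_eq hP hd.le]; exact h) D h1 z h2 φ G hG h3
  exact ⟨this.1, this.2.2.1, this.2.2.2⟩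

end Pool.Agent.N144.OF
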