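import Pool.Agent.N144.OF.Alg
import Pool.Agent.W528.Ord.Dens
import Pool.Agent.W528.Ord.Engine

/-!
# Zero-one law for polynomial class functions on the components of a Galois representation
-/

set_option autoImplicit false
set_option linter.all false

namespace Pool.Agent.N144.OF

open MeasureTheory Topology Filter NumberField IsDedekindDomain Polynomial
open Pool.Agent.W401.Cheb Pool.Agent.W528.Ord

variable {K : Type} [Field K] [NumberField K]

theorem dens_finite (P : HeightOneSpectrum (𝓞 K) → Prop) (hf : {v | P v}.Finite) :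
    Tendsto (dens P) atTop (𝓝 0) := by
  refine squeeze_zero (fun N => dens_nonneg _ _) (fun N => ?_)
    (Pool.Agent.W352.ChAbs.const_div_pi ({v | P v}.ncard : ℝ))
  unfold dens
  apply div_le_div_of_nonneg_right _ (Nat.cast_nonneg _)
  have : {v : HeightOneSpectrum (𝓞 K) | Ideal.absNorm v.asIdeal ≤ N ∧ P v} ⊆ {v | P v} :=
    fun v hv => hv.2
  exact_mod_cast Set.ncard_le_ncard this hf

theorem bad_finite (p : ℕ) (hp : p ≠ 0) :
    {v : HeightOneSpectrum (𝓞 K) | (p : 𝓞 K) ∈ v.asIdeal}.Finite := by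
  have h : {v : HeightOneSpectrum (𝓞 K) | (p : 𝓞 K) ∈ v.asIdeal} ⊆
      {v : HeightOneSpectrum (𝓞 K) | v.asIdeal ∣ Ideal.span {(p : 𝓞 K)}} := by
    intro v hv
    show v.asIdeal ∣ Ideal.span {(p : 𝓞 K)}
    rw [Ideal.dvd_span_singleton]
    exact hv
  refine Set.Finite.subset ?_ h
  apply Ideal.finite_factors
  rw [Ne, Ideal.zero_eq_bot, Ideal.span_singleton_eq_bot]
  exact_mod_cast hp

/-- the frequency of the class of a coset -/
theorem cls_dens (U : Subgroup (GK K)) [hN : U.Normal] (hU : IsOpen (U : Set (GK K))) (γ : GK K)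
    (ε : ℝ) (hε : 0 < ε) :
    ∀ᶠ N : ℕ in atTop, 1 / (U.index : ℝ) - ε ≤
      dens (fun v : HeightOneSpectrum (𝓞 K) => ∃ σ ∈ cls U γ, IsFrob v σ) N := by
  have h := chebK K U hU (cls U γ) (cls_conj U γ) (cls_mul U γ)
  haveI hfin : Finite (GK K ⧸ U) := Subgroup.quotient_finite_of_isOpen _ hU
  have h1 : (1 : ℝ) / (U.index : ℝ) ≤
      (((QuotientGroup.mk : GK K → GK K ⧸ U) '' cls U γ).ncard : ℝ) / (Nat.card (GK K ⧸ U) : ℝ) := by
    have hc : (0 : ℝ) < (Nat.card (GK K ⧸ U) : ℝ) := by exact_mod_cast Nat.card_pos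
    change (1 : ℝ) / (Nat.card (GK K ⧸ U) : ℝ) ≤ _
    apply div_le_div_of_nonneg_right _ hc.le
    have : 0 < ((QuotientGroup.mk : GK K → GK K ⧸ U) '' cls U γ).ncard := by
      rw [Set.ncard_pos (Set.toFinite _)]
      exact ⟨_, γ, cls_self U γ, rfl⟩
    exact_mod_cast this
  have h2 := h.eventually (lt_mem_nhds (lt_of_lt_of_le (sub_lt_self _ hε) h1))
  filter_upwards [h2] with N hN
  exact hN.le

/-- **the law for the class of a coset** -/
theorem law {Ω : Type} [Field Ω] [TopologicalSpace Ω] [IsTopologicalRing Ω] [T2Space Ω] {n : ℕ}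
    (τ : GK K →* Matrix (Fin n) (Fin n) Ω) (hτ : Continuous τ)
    (U : Subgroup (GK K)) [hN : U.Normal] (hU : IsOpen (U : Set (GK K))) (hmin : IsMin (PA τ) U)
    (F : GK K → Ω) (hF : F ∈ PA τ) (hcl : ∀ σ t : GK K, F (t * σ * t⁻¹) = F σ) (γ : GK K)
    (hγ : F γ ≠ 0) (Good : HeightOneSpectrum (𝓞 K) → Prop) (T : Set (HeightOneSpectrum (𝓞 K)))
    (hT : T.Finite) (hgood : ∀ v ∉ T, ∀ σ, IsFrob v σ → F σ ≠ 0 → Good v) :
    Tendsto (dens fun v => (∃ σ ∈ cls U γ, IsFrob v σ) ∧ ¬ Good v) atTop (𝓝 0) ∧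
    ∀ ε : ℝ, 0 < ε → ∀ᶠ N : ℕ in atTop, 1 / (U.index : ℝ) - ε ≤ dens Good N := by
  letI : MeasurableSpace (GK K) := borel (GK K)
  haveI : BorelSpace (GK K) := ⟨rfl⟩
  let μ : Measure (GK K) := Measure.haarMeasure ⊤
  haveI : IsProbabilityMeasure μ := ⟨by
    have := Measure.haarMeasure_self (K₀ := (⊤ : TopologicalSpace.PositiveCompacts (GK K)))
    exact this⟩
  haveI := noeth τ
  have h1 : Tendsto (dens fun v => (∃ σ ∈ cls U γ, IsFrob v σ) ∧ ¬ Good v) atTop (𝓝 0) := by
    rcases class_null μ (PA τ) (trans_mem τ) (cont_mem τ hτ) U hU hmin F hF hcl γ with h | h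
    · exact absurd (h γ (cls_self U γ)) hγ
    · have hc : IsClosed {x | F x = 0 ∧ x ∈ cls U γ} :=
        (isClosed_eq (cont_mem τ hτ F hF) continuous_const).inter (cls_closed U hU γ)
      have h2 := dens_null μ {x | F x = 0 ∧ x ∈ cls U γ} hc
        (fun σ hσ t => ⟨(hcl σ t).trans hσ.1, cls_conj U γ σ hσ.2 t⟩) h
      have h3 := dens_finite (fun v => v ∈ T) hT
      have h4 := h2.add h3
      rw [add_zero] at h4
      refine squeeze_zero (fun N => dens_nonneg _ _) (fun N => ?_) h4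
      refine le_trans (dens_mono ?_ N) (dens_or _ _ N)
      rintro v ⟨⟨σ, hσ, hv⟩, hg⟩
      by_cases hvT : v ∈ T
      · exact Or.inr hvT
      · left
        refine ⟨σ, ⟨?_, hσ⟩, hv⟩
        by_contra hne
        exact hg (hgood v hvT σ hv hne)
  refine ⟨h1, fun ε hε => ?_⟩
  have h2 := cls_dens U hU γ (ε / 2) (half_pos hε)
  have h3 := h1.eventually (gt_mem_nhds (half_pos hε))
  filter_upwards [h2, h3] with N hN2 hN3
  have h4 : dens (fun v : HeightOneSpectrum (𝓞 K) => ∃ σ ∈ cls U γ, IsFrob v σ) N ≤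
      dens Good N + dens (fun v => (∃ σ ∈ cls U γ, IsFrob v σ) ∧ ¬ Good v) N := by
    refine le_trans (dens_mono ?_ N) (dens_or _ _ N)
    intro v hv
    by_cases hg : Good v
    · exact Or.inl hg
    · exact Or.inr ⟨hv, hg⟩
  linarith

/-- the subgroup -/
theorem exists_sub {Ω : Type} [Field Ω] {n : ℕ} (τ : GK K →* Matrix (Fin n) (Fin n) Ω) :
    ∃ U : Subgroup (GK K), U.Normal ∧ IsOpen (U : Set (GK K)) ∧ IsMin (PA τ) U ∧
      (IsMin (PA τ) ⊤ → U = ⊤) := by
  by_cases h : IsMin (PA τ) ⊤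
  · exact ⟨⊤, inferInstance, isOpen_univ, h, fun _ => rfl⟩
  · haveI := noeth τ
    obtain ⟨U, h1, h2, h3⟩ := exists_min (PA τ)
    exact ⟨U, h2, h1, h3, fun h' => absurd h' h⟩

/-- the contragredient representation -/
def dual {G R : Type*} [Group G] [CommRing R] {n : ℕ} (τ : G →* Matrix (Fin n) (Fin n) R) :
    G →* Matrix (Fin n) (Fin n) R where
  toFun g := (τ g⁻¹).transpose
  map_one' := by simp
  map_mul' a b := by simp

theorem dual_apply {G R : Type*} [Group G] [CommRing R] {n : ℕ} (τ : G →* Matrix (Fin n) (Fin n) R)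
    (g : G) : dual τ g = (τ g⁻¹).transpose := rfl

theorem dual_charpoly {G R : Type*} [Group G] [CommRing R] {n : ℕ} (τ : G →* Matrix (Fin n) (Fin n) R)
    (g : G) : (dual τ g).charpoly = (τ g⁻¹).charpoly := by
  rw [dual_apply, Matrix.charpoly_transpose]

theorem dual_cont {G R : Type*} [Group G] [CommRing R] [TopologicalSpace G] [IsTopologicalGroup G]
    [TopologicalSpace R] {n : ℕ} (τ : G →* Matrix (Fin n) (Fin n) R) (h : Continuous τ) :
    Continuous (dual τ) := (h.comp continuous_inv).matrix_transpose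

/-- connectedness for the dual -/
theorem dual_min {G Ω : Type*} [Group G] [TopologicalSpace G] [Field Ω] {n : ℕ}
    (τ : G →* Matrix (Fin n) (Fin n) Ω)
    (h : ∀ (F : MvPolynomial (Fin n × Fin n) Ω) (U : Subgroup G), IsOpen (U : Set G) →
      (∀ u ∈ U, MvPolynomial.eval (fun x => τ u x.1 x.2) F = 0) →
      ∀ g, MvPolynomial.eval (fun x => τ g x.1 x.2) F = 0) :
    IsMin (PA (dual τ)) ⊤ := by
  intro U _ hU F hF h0 u _
  obtain ⟨P, hP⟩ := (mem_PA _ F).mp hF
  -- the polynomial in the transposed variables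
  let P' : MvPolynomial (Fin n × Fin n) Ω := MvPolynomial.rename Prod.swap P
  have key : ∀ g : G, MvPolynomial.eval (fun x => τ g x.1 x.2) P' = F g⁻¹ := by
    intro g
    have e : (fun x : Fin n × Fin n => τ g x.1 x.2) ∘ Prod.swap = ent (dual τ) g⁻¹ := by
      funext x
      simp [ent, dual_apply, Function.comp]
    rw [hP, MvPolynomial.eval_rename, e]
  have h1 := h P' U hU (by
    intro v hv
    rw [key]
    exact h0 _ (U.inv_mem hv)) u⁻¹
  rw [key, inv_inv] at h1
  exact h1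

end Pool.Agent.N144.OF
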