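import Pool.Agent.N144.OF.Alg

/-!
# Semisimplicity from separable polynomials; roots in different fields
-/

set_option autoImplicit false
set_option linter.all false

namespace Pool.Agent.N144.OF

open Polynomial Matrix

section blocks

variable {F : Type*} [Field F] {m n : ℕ}

theorem aeval_blocks (A : Matrix (Fin m) (Fin m) F) (B : Matrix (Fin n) (Fin n) F) (p : F[X]) :
    aeval (Matrix.fromBlocks A 0 0 B) p = Matrix.fromBlocks (aeval A p) 0 0 (aeval B p) := by
  induction p using Polynomial.induction_on' with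
  | add p q hp hq => rw [map_add, hp, hq, map_add, map_add, Matrix.fromBlocks_add, add_zero, add_zero]
  | monomial k a =>
    rw [aeval_monomial, aeval_monomial, aeval_monomial, Matrix.fromBlocks_diagonal_pow,
      Algebra.algebraMap_eq_smul_one, Algebra.algebraMap_eq_smul_one, Algebra.algebraMap_eq_smul_one,
      smul_mul_assoc, smul_mul_assoc, smul_mul_assoc, one_mul, one_mul, one_mul, Matrix.fromBlocks_smul,
      smul_zero, smul_zero]

theorem aeval_toLin' {k : Type*} [Fintype k] [DecidableEq k] (M : Matrix k k F) (p : F[X]) :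
    aeval (Matrix.toLin' M) p = Matrix.toLin' (aeval M p) := by
  have := Polynomial.aeval_algHom_apply (Matrix.toLinAlgEquiv' : Matrix k k F ≃ₐ[F] _).toAlgHom M p
  exact this

theorem semisimple_of_sep {k : Type*} [Fintype k] [DecidableEq k] (M : Matrix k k F) (p : F[X])
    (hp : p.Separable) (h : aeval M p = 0) : Module.End.IsSemisimple (Matrix.toLin' M) := by
  refine Module.End.isSemisimple_of_squarefree_aeval_eq_zero hp.squarefree ?_
  rw [aeval_toLin', h, map_zero]

theorem sep_X_mul (p : F[X]) (hp : p.Separable) (h0 : p.eval 0 ≠ 0) : (X * p).Separable := by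
  have hco : IsCoprime X p := by
    have h1 : Irreducible (X : F[X]) := irreducible_X
    rw [h1.coprime_iff_not_dvd, X_dvd_iff, coeff_zero_eq_eval_zero]
    exact h0
  exact separable_X.mul hp hco

theorem semisimple_blocks [CharZero F] (A : Matrix (Fin m) (Fin m) F) (B : Matrix (Fin n) (Fin n) F)
    (k : ℕ) (hk : 0 < k) (hA : A ^ k = 1) (hB : B.charpoly.Separable) (hB0 : B.det ≠ 0) :
    Module.End.IsSemisimple (Matrix.toLin' (Matrix.fromBlocks A 0 0 B)) := by
  have e : Matrix.fromBlocks A 0 0 B = Matrix.fromBlocks A 0 0 0 + Matrix.fromBlocks 0 0 0 B := by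
    rw [Matrix.fromBlocks_add]
    simp
  have h0 : ∀ {r : ℕ} (p : F[X]), aeval (0 : Matrix (Fin r) (Fin r) F) (X * p) = 0 := by
    intro r p
    rw [map_mul, aeval_X, zero_mul]
  have h1 : Module.End.IsSemisimple (Matrix.toLin' (Matrix.fromBlocks A 0 0 (0 : Matrix (Fin n) (Fin n) F))) := by
    refine semisimple_of_sep _ (X * (X ^ k - C 1)) (sep_X_mul _ ?_ ?_) ?_
    · exact separable_X_pow_sub_C (1 : F) (by exact_mod_cast hk.ne') one_ne_zero
    · simp [hk.ne']
    · rw [aeval_blocks, h0]
      have : aeval A (X * (X ^ k - C 1) : F[X]) = 0 := by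
        simp [hA]
      rw [this, Matrix.fromBlocks_zero]
  have h2 : Module.End.IsSemisimple (Matrix.toLin' (Matrix.fromBlocks (0 : Matrix (Fin m) (Fin m) F) 0 0 B)) := by
    refine semisimple_of_sep _ (X * B.charpoly) (sep_X_mul _ hB ?_) ?_
    · rw [← coeff_zero_eq_eval_zero]
      intro h
      apply hB0
      rw [Matrix.det_eq_sign_charpoly_coeff, h, mul_zero]
    · rw [aeval_blocks, h0]
      have : aeval B (X * B.charpoly) = 0 := by
        rw [map_mul, Matrix.aeval_self_charpoly, mul_zero]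
      rw [this, Matrix.fromBlocks_zero]
  rw [e, map_add]
  refine Module.End.IsSemisimple.add_of_commute ?_ h1 h2
  have hc : (Matrix.fromBlocks A 0 0 (0 : Matrix (Fin n) (Fin n) F)) *
      (Matrix.fromBlocks (0 : Matrix (Fin m) (Fin m) F) 0 0 B) = 0 := by
    rw [Matrix.fromBlocks_multiply]
    simp
  have hc' : (Matrix.fromBlocks (0 : Matrix (Fin m) (Fin m) F) 0 0 B) *
      (Matrix.fromBlocks A 0 0 (0 : Matrix (Fin n) (Fin n) F)) = 0 := by
    rw [Matrix.fromBlocks_multiply]
    simp
  change Matrix.toLin' _ ∘ₗ Matrix.toLin' _ = Matrix.toLin' _ ∘ₗ Matrix.toLin' _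
  rw [← Matrix.toLin'_mul, ← Matrix.toLin'_mul, hc, hc']

end blocks

section field

/-- relations between the roots do not depend on the algebraically closed field -/
theorem transfer {k L Ω : Type*} [Field k] [Field L] [Algebra k L] [Field Ω] [Algebra k Ω]
    [IsAlgClosed Ω] (P : k[X]) (hP : P ≠ 0) (r : ℕ)
    (h : ∀ a b : Ω, aeval a P = 0 → aeval b P = 0 → a ^ r = b ^ r → a = b) :
    ∀ a b : L, aeval a P = 0 → aeval b P = 0 → a ^ r = b ^ r → a = b := by
  intro a b ha hb hab
  have haa : a ∈ algebraicClosure k L := mem_algebraicClosure_iff.mpr ⟨P, hP, ha⟩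
  have hbb : b ∈ algebraicClosure k L := mem_algebraicClosure_iff.mpr ⟨P, hP, hb⟩
  let φ : algebraicClosure k L →ₐ[k] Ω := IsAlgClosed.lift
  set a' : algebraicClosure k L := ⟨a, haa⟩ with ha'
  set b' : algebraicClosure k L := ⟨b, hbb⟩ with hb'
  have h1 : aeval a' P = 0 := by
    apply Subtype.ext
    have := aeval_algHom_apply (algebraicClosure k L).val a' P
    rw [ZeroMemClass.coe_zero, ← ha]
    exact this.symm
  have h2 : aeval b' P = 0 := by
    apply Subtype.ext
    have := aeval_algHom_apply (algebraicClosure k L).val b' P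
    rw [ZeroMemClass.coe_zero, ← hb]
    exact this.symm
  have h3 : a' ^ r = b' ^ r := Subtype.ext hab
  have h4 : φ a' = φ b' := by
    apply h
    · rw [aeval_algHom_apply, h1, map_zero]
    · rw [aeval_algHom_apply, h2, map_zero]
    · rw [← map_pow, ← map_pow, h3]
  exact congrArg Subtype.val (φ.injective h4)

theorem transfer_one {k L Ω : Type*} [Field k] [Field L] [Algebra k L] [Field Ω] [Algebra k Ω]
    [IsAlgClosed Ω] (P : k[X]) (hP : P ≠ 0) (r : ℕ)
    (h : ∀ a : Ω, aeval a P = 0 → a ^ r ≠ 1) :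
    ∀ a : L, aeval a P = 0 → a ^ r ≠ 1 := by
  intro a ha hk
  have haa : a ∈ algebraicClosure k L := mem_algebraicClosure_iff.mpr ⟨P, hP, ha⟩
  let φ : algebraicClosure k L →ₐ[k] Ω := IsAlgClosed.lift
  set a' : algebraicClosure k L := ⟨a, haa⟩ with ha'
  have h1 : aeval a' P = 0 := by
    apply Subtype.ext
    have := aeval_algHom_apply (algebraicClosure k L).val a' P
    rw [ZeroMemClass.coe_zero, ← ha]
    exact this.symm
  have h3 : a' ^ r = 1 := Subtype.ext hk
  refine h (φ a') ?_ ?_
  · rw [aeval_algHom_apply, h1, map_zero]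
  · rw [← map_pow, h3, map_one]

end field

section finite

/-- elements of a finite image have finite order -/
theorem exists_pow_eq_one {G R : Type*} [Group G] [Monoid R] (α : G →* R) (hα : (Set.range α).Finite)
    (g : G) : ∃ k : ℕ, 0 < k ∧ (α g) ^ k = 1 := by
  obtain ⟨i, j, hij, h⟩ : ∃ i j : ℕ, i < j ∧ α (g ^ i) = α (g ^ j) := by
    have hf : ∀ i : ℕ, α (g ^ i) ∈ Set.range α := fun i => ⟨_, rfl⟩
    obtain ⟨i, j, hij, h⟩ := Set.Finite.exists_lt_map_eq_of_forall_mem hf hα
    exact ⟨i, j, hij, h⟩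
  refine ⟨j - i, Nat.sub_pos_of_lt hij, ?_⟩
  have h1 : α (g ^ (j - i)) = α (g ^ j) * α (g ^ i)⁻¹ := by
    rw [← map_mul, pow_sub g hij.le]
  rw [← map_pow, h1, ← h, ← map_mul, mul_inv_cancel, map_one]

end finite

end Pool.Agent.N144.OF
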