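import Pool.Agent.N144.OF.Law
import Pool.Agent.N144.OF.Semi

/-!
# Semisimplicity of the Frobenius endomorphisms of the reductions, from one place
-/

set_option autoImplicit false
set_option linter.all false

namespace Pool.Agent.N144.OF

open Topology Filter NumberField IsDedekindDomain Polynomial
open Pool.Agent.W401.Cheb Pool.Agent.W528.Ord

variable {K : Type} [Field K] [NumberField K] {m n : ℕ}

/-- continuous, with the Frobenius polynomials `P v` -/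
def Comp (S : Set (HeightOneSpectrum (𝓞 K))) (P : HeightOneSpectrum (𝓞 K) → ℚ[X]) (ℓ : ℕ)
    [Fact ℓ.Prime] (τ : GK K →* Matrix (Fin n) (Fin n) ℚ_[ℓ]) : Prop :=
  Continuous τ ∧ ∀ v ∉ S, (ℓ : 𝓞 K) ∉ v.asIdeal → ∀ σ : GK K, IsFrob v σ →
    (τ σ⁻¹).charpoly = (P v).map (algebraMap ℚ ℚ_[ℓ])

/-- the second cohomology -/
noncomputable def h2 (α : GK K →* Matrix (Fin m) (Fin m) ℚ) {ℓ : ℕ} [Fact ℓ.Prime]
    (τ : GK K →* Matrix (Fin n) (Fin n) ℚ_[ℓ]) (σ : GK K) :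
    Matrix (Fin m ⊕ Fin n) (Fin m ⊕ Fin n) ℚ_[ℓ] :=
  Matrix.fromBlocks ((α σ).map (algebraMap ℚ ℚ_[ℓ])) 0 0 (τ σ)

/-- semisimplicity at `v` -/
def SemiAt (α : GK K →* Matrix (Fin m) (Fin m) ℚ)
    (τ : ∀ (ℓ : ℕ) [Fact ℓ.Prime], GK K →* Matrix (Fin n) (Fin n) ℚ_[ℓ])
    (v : HeightOneSpectrum (𝓞 K)) : Prop :=
  ∀ (ℓ : ℕ) [Fact ℓ.Prime], (ℓ : 𝓞 K) ∉ v.asIdeal → ∀ σ : GK K, IsFrob v σ → ∀ k : ℕ,
    Module.End.IsSemisimple (Matrix.toLin' (h2 α (τ ℓ) σ⁻¹) ^ k)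

theorem det_ne_zero {G F : Type*} [Group G] [Field F] {r : ℕ} (τ : G →* Matrix (Fin r) (Fin r) F)
    (g : G) : (τ g).det ≠ 0 := by
  intro h
  have h1 : τ g * τ g⁻¹ = 1 := by rw [← map_mul, mul_inv_cancel, map_one]
  have h2 := congrArg Matrix.det h1
  rw [Matrix.det_mul, h, zero_mul, Matrix.det_one] at h2
  exact zero_ne_one h2

theorem map_pow_one {F : Type*} [Field F] [Algebra ℚ F] {r : ℕ} (A : Matrix (Fin r) (Fin r) ℚ) (k : ℕ)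
    (h : A ^ k = 1) : (A.map (algebraMap ℚ F)) ^ k = 1 := by
  have h1 := (map_pow ((algebraMap ℚ F).mapMatrix (m := Fin r)) A k)
  rw [h, map_one] at h1
  exact h1.symm

theorem semiAt_of_sep {S : Set (HeightOneSpectrum (𝓞 K))} {P : HeightOneSpectrum (𝓞 K) → ℚ[X]}
    {α : GK K →* Matrix (Fin m) (Fin m) ℚ} (hα : (Set.range α).Finite)
    {τ : ∀ (ℓ : ℕ) [Fact ℓ.Prime], GK K →* Matrix (Fin n) (Fin n) ℚ_[ℓ]}
    (hτ : ∀ (ℓ : ℕ) [Fact ℓ.Prime], Comp S P ℓ (τ ℓ)) {v : HeightOneSpectrum (𝓞 K)} (hv : v ∉ S)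
    (hs : (P v).Separable) : SemiAt α τ v := by
  intro ℓ _ hℓ σ hσ k
  obtain ⟨j, hj, h1⟩ := exists_pow_eq_one α hα σ⁻¹
  refine Module.End.IsSemisimple.pow ?_ k
  refine semisimple_blocks _ _ j hj (map_pow_one _ _ h1) ?_ (det_ne_zero (τ ℓ) σ⁻¹)
  rw [(hτ ℓ).2 v hv hℓ σ hσ]
  exact hs.map

theorem sep_iff {S : Set (HeightOneSpectrum (𝓞 K))} {P : HeightOneSpectrum (𝓞 K) → ℚ[X]}
    {τ : ∀ (ℓ : ℕ) [Fact ℓ.Prime], GK K →* Matrix (Fin n) (Fin n) ℚ_[ℓ]}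
    (hτ : ∀ (ℓ : ℕ) [Fact ℓ.Prime], Comp S P ℓ (τ ℓ)) (ℓ : ℕ) [Fact ℓ.Prime]
    {v : HeightOneSpectrum (𝓞 K)} (hv : v ∉ S)
    (hℓ : (ℓ : 𝓞 K) ∉ v.asIdeal) (σ : GK K) (hσ : IsFrob v σ) :
    disc (dual (τ ℓ) σ) ≠ 0 ↔ (P v).Separable := by
  rw [disc_ne_zero_iff, dual_charpoly, (hτ ℓ).2 v hv hℓ σ hσ, Polynomial.separable_map]

/-- **semisimplicity from one place** -/
theorem semi_main {S : Set (HeightOneSpectrum (𝓞 K))} (hS : S.Finite)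
    {P : HeightOneSpectrum (𝓞 K) → ℚ[X]}
    {α : GK K →* Matrix (Fin m) (Fin m) ℚ} (hα : (Set.range α).Finite)
    {τ : ∀ (ℓ : ℕ) [Fact ℓ.Prime], GK K →* Matrix (Fin n) (Fin n) ℚ_[ℓ]}
    (hτ : ∀ (ℓ : ℕ) [Fact ℓ.Prime], Comp S P ℓ (τ ℓ)) (ℓ₀ : ℕ) [Fact ℓ₀.Prime]
    (U : Subgroup (GK K)) [hN : U.Normal] (hU : IsOpen (U : Set (GK K)))
    (hmin : IsMin (PA (dual (τ ℓ₀))) U)
    (v₀ : HeightOneSpectrum (𝓞 K)) (hv₀ : v₀ ∉ S) (hℓv : (ℓ₀ : 𝓞 K) ∉ v₀.asIdeal)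
    (hsep : (P v₀).Separable) (σ₀ : GK K) (hσ₀ : IsFrob v₀ σ₀) :
    (Tendsto (dens fun v => (∃ σ ∈ cls U σ₀, IsFrob v σ) ∧ ¬ SemiAt α τ v) atTop (𝓝 0) ∧
      ∀ ε : ℝ, 0 < ε → ∀ᶠ N : ℕ in atTop, 1 / (U.index : ℝ) - ε ≤ dens (SemiAt α τ) N) ∧
    ((∀ a b : ℂ, aeval a (P v₀) = 0 → aeval b (P v₀) = 0 → ∀ k : ℕ, 0 < k → a ^ k = b ^ k → a = b) →
      (∀ k : ℕ, 0 < k →
        Tendsto (dens fun v => (∃ σ ∈ cls U (σ₀ ^ k), IsFrob v σ) ∧ ¬ SemiAt α τ v) atTop (𝓝 0)) ∧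
      Tendsto (dens fun v => (∃ σ ∈ U, IsFrob v σ) ∧ ¬ SemiAt α τ v) atTop (𝓝 0)) := by
  have hT : (S ∪ {v : HeightOneSpectrum (𝓞 K) | (ℓ₀ : 𝓞 K) ∈ v.asIdeal}).Finite :=
    hS.union (bad_finite ℓ₀ (Fact.out (p := ℓ₀.Prime)).ne_zero)
  have key : ∀ γ : GK K, disc (dual (τ ℓ₀) γ) ≠ 0 →
      Tendsto (dens fun v => (∃ σ ∈ cls U γ, IsFrob v σ) ∧ ¬ SemiAt α τ v) atTop (𝓝 0) ∧
        ∀ ε : ℝ, 0 < ε → ∀ᶠ N : ℕ in atTop, 1 / (U.index : ℝ) - ε ≤ dens (SemiAt α τ) N := by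
    intro γ hγ
    refine law (dual (τ ℓ₀)) (dual_cont _ (hτ ℓ₀).1) U hU hmin (fun g => disc (dual (τ ℓ₀) g))
      (disc_mem _) (fun σ t => disc_conj _ σ t) γ hγ (SemiAt α τ) _ hT ?_
    intro v hv σ hσ hne
    simp only [Set.mem_union, Set.mem_setOf_eq, not_or] at hv
    exact semiAt_of_sep hα hτ hv.1 ((sep_iff hτ ℓ₀ hv.1 hv.2 σ hσ).mp hne)
  haveI hfin : Finite (GK K ⧸ U) := Subgroup.quotient_finite_of_isOpen _ hU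
  have hidx : 0 < U.index := Nat.pos_of_ne_zero (by
    haveI : U.FiniteIndex := Subgroup.finiteIndex_iff_finite_quotient.mpr hfin
    exact Subgroup.FiniteIndex.index_ne_zero)
  have hmem : σ₀ ^ U.index ∈ U := Subgroup.pow_index_mem U σ₀
  refine ⟨key σ₀ ((sep_iff hτ ℓ₀ hv₀ hℓv σ₀ hσ₀).mpr hsep), fun hr => ?_⟩
  have hd : ∀ k : ℕ, 0 < k → disc (dual (τ ℓ₀) (σ₀ ^ k)) ≠ 0 := by
    intro k hk
    rw [map_pow]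
    have hP : (dual (τ ℓ₀) σ₀).charpoly = (P v₀).map (algebraMap ℚ ℚ_[ℓ₀]) := by
      rw [dual_charpoly, (hτ ℓ₀).2 v₀ hv₀ hℓv σ₀ hσ₀]
    refine disc_pow_ne_zero _ k hk (by rw [hP]; exact hsep.map) ?_
    rw [hP]
    intro a b ha hb hab
    rw [aeval_map_algebraMap] at ha hb
    exact transfer (k := ℚ) (Ω := ℂ) (P v₀) hsep.ne_zero k (fun a b h1 h2 h3 => hr a b h1 h2 k hk h3)
      a b ha hb hab
  refine ⟨fun k hk => (key _ (hd k hk)).1, ?_⟩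
  refine squeeze_zero (fun N => dens_nonneg _ _) (fun N => dens_mono ?_ N) (key _ (hd U.index hidx)).1
  rintro v ⟨⟨σ, hσ, hv⟩, hg⟩
  refine ⟨⟨σ, ⟨1, ?_⟩, hv⟩, hg⟩
  simpa using U.mul_mem (U.inv_mem hmem) hσ

end Pool.Agent.N144.OF
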