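import Pool.Agent.N144.OF.Tate

/-!
# Tate eigenvalues and Tate classes of the reductions, from one place
-/

set_option autoImplicit false
set_option linter.all false

namespace Pool.Agent.N144.OF

open Topology Filter NumberField IsDedekindDomain Polynomial
open Pool.Agent.W401.Cheb Pool.Agent.W528.Ord

variable {K : Type} [Field K] [NumberField K] {m n : ℕ}

/-- semisimplicity at the Tate eigenvalues -/
def WeakAt (α : GK K →* Matrix (Fin m) (Fin m) ℚ)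
    (τ : ∀ (ℓ : ℕ) [Fact ℓ.Prime], GK K →* Matrix (Fin n) (Fin n) ℚ_[ℓ])
    (v : HeightOneSpectrum (𝓞 K)) : Prop :=
  ∀ (ℓ : ℕ) [Fact ℓ.Prime], (ℓ : 𝓞 K) ∉ v.asIdeal → ∀ σ : GK K, IsFrob v σ → ∀ k : ℕ, 0 < k →
    Module.End.maxGenEigenspace (Matrix.toLin' (h2 α (τ ℓ) σ⁻¹) ^ k) 1 =
      Module.End.eigenspace (Matrix.toLin' (h2 α (τ ℓ) σ⁻¹) ^ k) 1

/-- `D` is spanned by fixed classes and contains the fixed classes of the generic fibre -/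
def DivSpan {ℓ : ℕ} [Fact ℓ.Prime] (A : Matrix (Fin m) (Fin m) ℚ)
    (M : Matrix (Fin m ⊕ Fin n) (Fin m ⊕ Fin n) ℚ_[ℓ]) (k : ℕ)
    (D : Submodule ℚ_[ℓ] (Fin m ⊕ Fin n → ℚ_[ℓ])) : Prop :=
  (∀ x ∈ D, (Matrix.toLin' M ^ k) x = x) ∧
    ∀ y : Fin m → ℚ, (Matrix.toLin' A ^ k) y = y →
      Sum.elim (fun i => algebraMap ℚ ℚ_[ℓ] (y i)) (0 : Fin n → ℚ_[ℓ]) ∈ D

/-- the Tate conjecture for divisors at `v` over all finite extensions -/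
def TateAt (α : GK K →* Matrix (Fin m) (Fin m) ℚ)
    (τ : ∀ (ℓ : ℕ) [Fact ℓ.Prime], GK K →* Matrix (Fin n) (Fin n) ℚ_[ℓ])
    (v : HeightOneSpectrum (𝓞 K)) : Prop :=
  ∀ (ℓ : ℕ) [Fact ℓ.Prime], (ℓ : 𝓞 K) ∉ v.asIdeal → ∀ σ : GK K, IsFrob v σ → ∀ k : ℕ, 0 < k →
    ∀ D : Submodule ℚ_[ℓ] (Fin m ⊕ Fin n → ℚ_[ℓ]), DivSpan (α σ⁻¹) (h2 α (τ ℓ) σ⁻¹) k D →
      D = Module.End.eigenspace (Matrix.toLin' (h2 α (τ ℓ) σ⁻¹) ^ k) 1 ∧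
      Module.finrank ℚ_[ℓ] D =
        (Matrix.toLin' (h2 α (τ ℓ) σ⁻¹) ^ k).charpoly.rootMultiplicity 1 ∧
      Module.finrank ℚ_[ℓ] D =
        Module.finrank ℚ (Module.End.eigenspace (Matrix.toLin' (α σ⁻¹) ^ k) 1)

section good

variable {S : Set (HeightOneSpectrum (𝓞 K))} {P : HeightOneSpectrum (𝓞 K) → ℚ[X]}
    {α : GK K →* Matrix (Fin m) (Fin m) ℚ} (hα : (Set.range α).Finite)
    {τ : ∀ (ℓ : ℕ) [Fact ℓ.Prime], GK K →* Matrix (Fin n) (Fin n) ℚ_[ℓ]}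
    (hτ : ∀ (ℓ : ℕ) [Fact ℓ.Prime], Comp S P ℓ (τ ℓ))

include hτ in
theorem deg_P (ℓ : ℕ) [Fact ℓ.Prime] {v : HeightOneSpectrum (𝓞 K)} (hv : v ∉ S)
    (hℓ : (ℓ : 𝓞 K) ∉ v.asIdeal) : P v ≠ 0 ∧ (P v).natDegree ≤ n := by
  obtain ⟨σ, hσ⟩ := exists_isFrob v
  have h := (hτ ℓ).2 v hv hℓ σ hσ
  have h1 := Matrix.charpoly_natDegree_eq_dim (τ ℓ σ⁻¹)
  rw [h, natDegree_map, Fintype.card_fin] at h1
  refine ⟨?_, h1.le⟩
  intro h0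
  have h2 := (Matrix.charpoly_monic (τ ℓ σ⁻¹)).ne_zero
  rw [h, h0, Polynomial.map_zero] at h2
  exact h2 rfl

include hα hτ in
theorem weakAt_of {v : HeightOneSpectrum (𝓞 K)} (hv : v ∉ S) (h : cnt ℂ (expo n) (P v) ≤ 1) :
    WeakAt α τ v := by
  intro ℓ _ hℓ σ hσ k hk
  obtain ⟨j, hj, h1⟩ := exists_pow_eq_one α hα σ⁻¹
  obtain ⟨h0, hd⟩ := deg_P hτ ℓ hv hℓ
  refine weak_blocks _ _ hj (map_pow_one _ _ h1) k ?_
  rw [mult_pow (τ ℓ σ⁻¹) (P v) ((hτ ℓ).2 v hv hℓ σ hσ) k hk.ne']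
  exact (cnt_le h0 hd hk).trans h

include hα hτ in
theorem tateAt_of {v : HeightOneSpectrum (𝓞 K)} (hv : v ∉ S) (h : cnt ℂ (expo n) (P v) = 0) :
    TateAt α τ v := by
  intro ℓ _ hℓ σ hσ k hk D hD
  obtain ⟨j, hj, h1⟩ := exists_pow_eq_one α hα σ⁻¹
  obtain ⟨h0, hd⟩ := deg_P hτ ℓ hv hℓ
  refine tate_blocks (α σ⁻¹) (τ ℓ σ⁻¹) hj h1 k ?_ D hD.1 hD.2
  rw [mult_pow (τ ℓ σ⁻¹) (P v) ((hτ ℓ).2 v hv hℓ σ hσ) k hk.ne']
  exact Nat.le_zero.mp ((cnt_le h0 hd hk).trans h.le)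

end good

theorem cls_of_mem {G : Type*} [Group G] (U : Subgroup G) [hN : U.Normal] {γ σ : G} (hγ : γ ∈ U)
    (hσ : σ ∈ U) : σ ∈ cls U γ := by
  refine ⟨1, ?_⟩
  simpa using U.mul_mem (U.inv_mem hγ) hσ

/-- **from one place**, for the number of roots which are roots of unity -/
theorem unity_main {S : Set (HeightOneSpectrum (𝓞 K))} (hS : S.Finite)
    {P : HeightOneSpectrum (𝓞 K) → ℚ[X]}
    {τ : ∀ (ℓ : ℕ) [Fact ℓ.Prime], GK K →* Matrix (Fin n) (Fin n) ℚ_[ℓ]}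
    (hτ : ∀ (ℓ : ℕ) [Fact ℓ.Prime], Comp S P ℓ (τ ℓ)) (ℓ₀ : ℕ) [Fact ℓ₀.Prime]
    (U : Subgroup (GK K)) [hN : U.Normal] (hU : IsOpen (U : Set (GK K)))
    (hmin : IsMin (PA (dual (τ ℓ₀))) U) (r : ℕ) (hr : r ≤ 1)
    (Good : HeightOneSpectrum (𝓞 K) → Prop)
    (hgood : ∀ v ∉ S, cnt ℂ (expo n) (P v) ≤ r → Good v)
    (v₀ : HeightOneSpectrum (𝓞 K)) (hv₀ : v₀ ∉ S) (hℓv : (ℓ₀ : 𝓞 K) ∉ v₀.asIdeal)
    (h0 : unity (P v₀) ≤ r) (σ₀ : GK K) (hσ₀ : IsFrob v₀ σ₀) :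
    (∀ k : ℕ, 0 < k →
      Tendsto (dens fun v => (∃ σ ∈ cls U (σ₀ ^ k), IsFrob v σ) ∧ ¬ Good v) atTop (𝓝 0)) ∧
    Tendsto (dens fun v => (∃ σ ∈ U, IsFrob v σ) ∧ ¬ Good v) atTop (𝓝 0) ∧
    ∀ ε : ℝ, 0 < ε → ∀ᶠ N : ℕ in atTop, 1 / (U.index : ℝ) - ε ≤ dens Good N := by
  have hT : (S ∪ {v : HeightOneSpectrum (𝓞 K) | (ℓ₀ : 𝓞 K) ∈ v.asIdeal}).Finite :=
    hS.union (bad_finite ℓ₀ (Fact.out (p := ℓ₀.Prime)).ne_zero)
  have hmul : ∀ v ∉ S, (ℓ₀ : 𝓞 K) ∉ v.asIdeal → ∀ σ, IsFrob v σ → ∀ k, 0 < k →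
      ((dual (τ ℓ₀) σ) ^ k).charpoly.rootMultiplicity 1 = cnt ℂ k (P v) := by
    intro v hv hℓ σ hσ k hk
    refine mult_pow _ (P v) ?_ k hk.ne'
    rw [dual_charpoly, (hτ ℓ₀).2 v hv hℓ σ hσ]
  have key : ∀ γ : GK K, (((dual (τ ℓ₀) γ) ^ expo n).charpoly.rootMultiplicity 1 ≤ r) →
      Tendsto (dens fun v => (∃ σ ∈ cls U γ, IsFrob v σ) ∧ ¬ Good v) atTop (𝓝 0) ∧
        ∀ ε : ℝ, 0 < ε → ∀ᶠ N : ℕ in atTop, 1 / (U.index : ℝ) - ε ≤ dens Good N := by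
    intro γ hγ
    by_cases hd : dpow (expo n) (dual (τ ℓ₀) γ) ≠ 0
    · refine law (dual (τ ℓ₀)) (dual_cont _ (hτ ℓ₀).1) U hU hmin
        (fun g => dpow (expo n) (dual (τ ℓ₀) g))
        (dpow_mem _ _) (fun σ t => dpow_conj _ _ σ t) γ hd Good _ hT ?_
      intro v hv σ hσ hne
      simp only [Set.mem_union, Set.mem_setOf_eq, not_or] at hv
      refine hgood v hv.1 ?_
      rw [← hmul v hv.1 hv.2 σ hσ _ (expo_pos n)]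
      have h1 : ¬ ((dual (τ ℓ₀) σ) ^ expo n).charpoly.IsRoot 1 := fun h => hne ((dpow_eq _ _).mpr h)
      rw [rootMultiplicity_eq_zero h1]
      exact Nat.zero_le _
    · have hr1 : r = 1 := by
        by_contra hne
        have hr0 : r = 0 := by omega
        have h1 : ((dual (τ ℓ₀) γ) ^ expo n).charpoly.IsRoot 1 := (dpow_eq _ _).mp (not_not.mp hd)
        have h2 := (rootMultiplicity_pos (Matrix.charpoly_monic _).ne_zero).mpr h1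
        omega
      subst hr1
      have hdd : dder (expo n) (dual (τ ℓ₀) γ) ≠ 0 :=
        ((mult_le_one_iff _ _).mp hγ).resolve_left hd
      refine law (dual (τ ℓ₀)) (dual_cont _ (hτ ℓ₀).1) U hU hmin
        (fun g => dder (expo n) (dual (τ ℓ₀) g))
        (dder_mem _ _) (fun σ t => dder_conj _ _ σ t) γ hdd Good _ hT ?_
      intro v hv σ hσ hne
      simp only [Set.mem_union, Set.mem_setOf_eq, not_or] at hv
      refine hgood v hv.1 ?_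
      rw [← hmul v hv.1 hv.2 σ hσ _ (expo_pos n), mult_le_one_iff]
      exact Or.inr hne
  obtain ⟨hP0, hPd⟩ := deg_P hτ ℓ₀ hv₀ hℓv
  have hk : ∀ k : ℕ, 0 < k →
      ((dual (τ ℓ₀) (σ₀ ^ k)) ^ expo n).charpoly.rootMultiplicity 1 ≤ r := by
    intro k hk
    rw [map_pow, ← pow_mul, hmul v₀ hv₀ hℓv σ₀ hσ₀ _ (Nat.mul_pos hk (expo_pos n))]
    refine (cnt_le hP0 hPd (Nat.mul_pos hk (expo_pos n))).trans ?_
    rw [← unity_eq hP0 hPd]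
    exact h0
  haveI hfin : Finite (GK K ⧸ U) := Subgroup.quotient_finite_of_isOpen _ hU
  have hidx : 0 < U.index := Nat.pos_of_ne_zero (by
    haveI : U.FiniteIndex := Subgroup.finiteIndex_iff_finite_quotient.mpr hfin
    exact Subgroup.FiniteIndex.index_ne_zero)
  have hmem : σ₀ ^ U.index ∈ U := Subgroup.pow_index_mem U σ₀
  refine ⟨fun k hk' => (key _ (hk k hk')).1, ?_, ?_⟩
  · refine squeeze_zero (fun N => dens_nonneg _ _) (fun N => dens_mono ?_ N)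
      (key _ (hk U.index hidx)).1
    rintro v ⟨⟨σ, hσ, hv⟩, hg⟩
    exact ⟨⟨σ, cls_of_mem U hmem hσ, hv⟩, hg⟩
  · exact (key _ (hk 1 one_pos)).2

end Pool.Agent.N144.OF
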