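import Pool.Agent.N144.OF.Main2

/-!
# No Tate classes in the transcendental part
-/

set_option autoImplicit false
set_option linter.all false

namespace Pool.Agent.N144.OF

open Topology Filter NumberField IsDedekindDomain Polynomial
open Pool.Agent.W401.Cheb Pool.Agent.W528.Ord

variable {K : Type} [Field K] [NumberField K] {m n : ℕ}

/-- a set of places of positive lower density is not contained in a finite set -/
theorem exists_good (Good : HeightOneSpectrum (𝓞 K) → Prop) (T : Set (HeightOneSpectrum (𝓞 K)))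
    (hT : T.Finite) (δ : ℝ) (hδ : 0 < δ)
    (h : ∀ ε : ℝ, 0 < ε → ∀ᶠ N : ℕ in atTop, δ - ε ≤ dens Good N) : ∃ v, Good v ∧ v ∉ T := by
  by_contra hne
  push Not at hne
  have h1 := dens_finite Good (hT.subset fun v hv => hne v hv)
  have h2 := h (δ / 2) (half_pos hδ)
  have h3 := h1.eventually (gt_mem_nhds (half_pos hδ))
  obtain ⟨N, hN1, hN2⟩ := (h2.and h3).exists
  linarith

/-- no invariants -/
theorem no_inv {S : Set (HeightOneSpectrum (𝓞 K))} 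
    {P : HeightOneSpectrum (𝓞 K) → ℚ[X]}
    {τ : ∀ (ℓ : ℕ) [Fact ℓ.Prime], GK K →* Matrix (Fin n) (Fin n) ℚ_[ℓ]}
    (hτ : ∀ (ℓ : ℕ) [Fact ℓ.Prime], Comp S P ℓ (τ ℓ)) (δ : ℝ) (hδ : 0 < δ)
    (h : ∀ ε : ℝ, 0 < ε → ∀ᶠ N : ℕ in atTop,
      δ - ε ≤ dens (fun v => v ∉ S ∧ cnt ℂ (expo n) (P v) = 0) N)
    (ℓ : ℕ) [Fact ℓ.Prime] (W : Subgroup (GK K)) (hW : IsOpen (W : Set (GK K)))
    (x : Fin n → ℚ_[ℓ]) (hx : ∀ w ∈ W, (τ ℓ w).mulVec x = x) : x = 0 := by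
  obtain ⟨v, ⟨hv, hc⟩, hℓ⟩ := exists_good _ _ (bad_finite (K := K) ℓ (Fact.out (p := ℓ.Prime)).ne_zero) δ hδ h
  have hℓ' : (ℓ : 𝓞 K) ∉ v.asIdeal := hℓ
  obtain ⟨σ, hσ⟩ := exists_isFrob v
  haveI hfin : Finite (GK K ⧸ W) := Subgroup.quotient_finite_of_isOpen _ hW
  have hidx : W.index ≠ 0 := by
    haveI : W.FiniteIndex := Subgroup.finiteIndex_iff_finite_quotient.mpr hfin
    exact Subgroup.FiniteIndex.index_ne_zero
  obtain ⟨k, hk, _, hkW⟩ := Subgroup.exists_pow_mem_of_index_ne_zero hidx σ⁻¹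
  have h1 := hx _ hkW
  rw [map_pow] at h1
  obtain ⟨h0, hd⟩ := deg_P hτ ℓ hv hℓ'
  have h2 : ((τ ℓ σ⁻¹) ^ k).charpoly.rootMultiplicity 1 = 0 := by
    rw [mult_pow (τ ℓ σ⁻¹) (P v) ((hτ ℓ).2 v hv hℓ' σ hσ) k hk.ne']
    exact Nat.le_zero.mp ((cnt_le h0 hd hk).trans hc.le)
  have hg : Module.End.maxGenEigenspace (Matrix.toLin' ((τ ℓ σ⁻¹) ^ k)) 1 = ⊥ := by
    rw [← Submodule.finrank_eq_zero, LinearMap.finrank_maxGenEigenspace_eq, Matrix.charpoly_toLin', h2]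
  have h3 : x ∈ Module.End.maxGenEigenspace (Matrix.toLin' ((τ ℓ σ⁻¹) ^ k)) 1 := by
    refine Module.End.genEigenspace_le_maximal _ _ 1 ?_
    have : x ∈ Module.End.eigenspace (Matrix.toLin' ((τ ℓ σ⁻¹) ^ k)) 1 := by
      rw [Module.End.mem_eigenspace_iff, one_smul, Matrix.toLin'_apply]
      exact h1
    exact this
  rw [hg] at h3
  exact h3

end Pool.Agent.N144.OF
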