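import Pool.Agent.N144.OF.Unity

/-!
# Eigenspaces of block matrices, Tate classes
-/

set_option autoImplicit false
set_option linter.all false

namespace Pool.Agent.N144.OF

open Polynomial Matrix

section blocks

variable {F : Type*} [Field F] {m n : ℕ}

theorem blk_apply (A : Matrix (Fin m) (Fin m) F) (B : Matrix (Fin n) (Fin n) F) (x : Fin m ⊕ Fin n → F) :
    Matrix.toLin' (Matrix.fromBlocks A 0 0 B) x =
      Sum.elim (Matrix.toLin' A (x ∘ Sum.inl)) (Matrix.toLin' B (x ∘ Sum.inr)) := by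
  rw [Matrix.toLin'_apply, Matrix.toLin'_apply, Matrix.toLin'_apply, Matrix.fromBlocks_mulVec]
  simp

theorem elim_eq_zero (a : Fin m → F) (b : Fin n → F) : Sum.elim a b = 0 ↔ a = 0 ∧ b = 0 := by
  constructor
  · intro h
    exact ⟨funext fun i => congrFun h (Sum.inl i), funext fun i => congrFun h (Sum.inr i)⟩
  · rintro ⟨rfl, rfl⟩
    funext i
    rcases i with i | i <;> rfl

theorem sub_one_pow {r : Type*} [Fintype r] [DecidableEq r] (M : Matrix r r F) (k : ℕ) :
    (Matrix.toLin' M - (1 : F) • (1 : Module.End F (r → F))) ^ k = Matrix.toLin' ((M - 1) ^ k) := by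
  rw [one_smul, Matrix.toLin'_pow, map_sub, Matrix.toLin'_one]
  rfl

theorem blk_sub_one_pow (A : Matrix (Fin m) (Fin m) F) (B : Matrix (Fin n) (Fin n) F) (k : ℕ) :
    (Matrix.fromBlocks A 0 0 B - 1) ^ k = Matrix.fromBlocks ((A - 1) ^ k) 0 0 ((B - 1) ^ k) := by
  rw [← Matrix.fromBlocks_diagonal_pow]
  congr 1
  rw [← Matrix.fromBlocks_one, sub_eq_add_neg, Matrix.fromBlocks_neg, Matrix.fromBlocks_add, sub_eq_add_neg,
    sub_eq_add_neg, neg_zero, neg_zero, add_zero, add_zero]

theorem pow_apply_zero {V : Type*} [AddCommGroup V] [Module F V] (g : Module.End F V) (x : V) {k r : ℕ}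
    (hkr : k ≤ r) (h : (g ^ k) x = 0) : (g ^ r) x = 0 := by
  obtain ⟨s, rfl⟩ := Nat.exists_eq_add_of_le hkr
  rw [add_comm, pow_add, Module.End.mul_apply, h, map_zero]

theorem mem_gen_iff (A : Matrix (Fin m) (Fin m) F) (B : Matrix (Fin n) (Fin n) F)
    (x : Fin m ⊕ Fin n → F) :
    x ∈ Module.End.maxGenEigenspace (Matrix.toLin' (Matrix.fromBlocks A 0 0 B)) 1 ↔
      x ∘ Sum.inl ∈ Module.End.maxGenEigenspace (Matrix.toLin' A) 1 ∧
      x ∘ Sum.inr ∈ Module.End.maxGenEigenspace (Matrix.toLin' B) 1 := by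
  rw [Module.End.mem_maxGenEigenspace, Module.End.mem_maxGenEigenspace, Module.End.mem_maxGenEigenspace]
  constructor
  · rintro ⟨k, hk⟩
    rw [sub_one_pow, blk_sub_one_pow, blk_apply, elim_eq_zero] at hk
    refine ⟨⟨k, ?_⟩, ⟨k, ?_⟩⟩
    · rw [sub_one_pow]; exact hk.1
    · rw [sub_one_pow]; exact hk.2
  · rintro ⟨⟨k, hk⟩, ⟨r, hr⟩⟩
    refine ⟨k + r, ?_⟩
    have h1 := pow_apply_zero _ _ (Nat.le_add_right k r) hk
    have h2 := pow_apply_zero _ _ (Nat.le_add_left r k) hr
    rw [sub_one_pow] at h1 h2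
    rw [sub_one_pow, blk_sub_one_pow, blk_apply, elim_eq_zero]
    exact ⟨h1, h2⟩

theorem mem_eig_iff (A : Matrix (Fin m) (Fin m) F) (B : Matrix (Fin n) (Fin n) F)
    (x : Fin m ⊕ Fin n → F) :
    x ∈ Module.End.eigenspace (Matrix.toLin' (Matrix.fromBlocks A 0 0 B)) 1 ↔
      x ∘ Sum.inl ∈ Module.End.eigenspace (Matrix.toLin' A) 1 ∧
      x ∘ Sum.inr ∈ Module.End.eigenspace (Matrix.toLin' B) 1 := by
  rw [Module.End.mem_eigenspace_iff, Module.End.mem_eigenspace_iff, Module.End.mem_eigenspace_iff,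
    blk_apply, one_smul, one_smul, one_smul]
  constructor
  · intro h
    exact ⟨funext fun i => congrFun h (Sum.inl i), funext fun i => congrFun h (Sum.inr i)⟩
  · rintro ⟨h1, h2⟩
    funext i
    rcases i with i | i
    · exact congrFun h1 i
    · exact congrFun h2 i

theorem gen_eq_of_mult {V : Type*} [AddCommGroup V] [Module F V] [FiniteDimensional F V]
    (f : Module.End F V) (μ : F) (h : f.charpoly.rootMultiplicity μ ≤ 1) :
    f.maxGenEigenspace μ = f.eigenspace μ := by
  have hle : f.eigenspace μ ≤ f.maxGenEigenspace μ := Module.End.genEigenspace_le_maximal f μ 1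
  have h1 := LinearMap.finrank_maxGenEigenspace_eq f μ
  by_cases h0 : f.charpoly.rootMultiplicity μ = 0
  · have h2 : f.maxGenEigenspace μ = ⊥ := by
      rw [← Submodule.finrank_eq_zero, h1, h0]
    rw [h2, eq_comm, eq_bot_iff, ← h2]
    exact hle
  · symm
    apply Submodule.eq_of_le_of_finrank_le hle
    rw [h1]
    refine h.trans ?_
    have h3 : f.HasEigenvalue μ := by
      rw [Module.End.hasEigenvalue_iff_isRoot_charpoly]
      exact (rootMultiplicity_pos f.charpoly_monic.ne_zero).mp (Nat.pos_of_ne_zero h0)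
    exact Nat.one_le_iff_ne_zero.mpr fun h4 => h3 (Submodule.finrank_eq_zero.mp h4)

theorem gen_eq_of_fin [CharZero F] {r : Type*} [Fintype r] [DecidableEq r] (C : Matrix r r F) {j : ℕ}
    (hj : 0 < j) (hC : C ^ j = 1) (μ : F) :
    Module.End.maxGenEigenspace (Matrix.toLin' C) μ = Module.End.eigenspace (Matrix.toLin' C) μ := by
  have hs : Module.End.IsSemisimple (Matrix.toLin' C) := by
    refine semisimple_of_sep C (X ^ j - Polynomial.C 1) ?_ ?_
    · exact separable_X_pow_sub_C (1 : F) (by exact_mod_cast hj.ne') one_ne_zero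
    · simp [hC]
  exact hs.isFinitelySemisimple.maxGenEigenspace_eq_eigenspace μ

/-- the weak form -/
theorem weak_blocks [CharZero F] (A : Matrix (Fin m) (Fin m) F) (B : Matrix (Fin n) (Fin n) F)
    {j : ℕ} (hj : 0 < j) (hA : A ^ j = 1) (k : ℕ) (hB : (B ^ k).charpoly.rootMultiplicity 1 ≤ 1) :
    Module.End.maxGenEigenspace (Matrix.toLin' (Matrix.fromBlocks A 0 0 B) ^ k) 1 =
      Module.End.eigenspace (Matrix.toLin' (Matrix.fromBlocks A 0 0 B) ^ k) 1 := by
  rw [← Matrix.toLin'_pow, Matrix.fromBlocks_diagonal_pow]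
  ext x
  rw [mem_gen_iff, mem_eig_iff, gen_eq_of_fin (A ^ k) hj (by rw [← pow_mul, mul_comm, pow_mul, hA, one_pow]),
    gen_eq_of_mult (Matrix.toLin' (B ^ k)) 1 (by rw [Matrix.charpoly_toLin']; exact hB)]

end blocks

section tate

variable {F : Type*} [Field F] [CharZero F] [Algebra ℚ F] {m n : ℕ}

/-- the invariants of a rational matrix of finite order are spanned by rational vectors -/
theorem fixed_span (A : Matrix (Fin m) (Fin m) ℚ) {j : ℕ} (hj : 0 < j) (hA : A ^ j = 1)
    (x : Fin m → F) (hx : (A.map (algebraMap ℚ F)).mulVec x = x) :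
    ∃ (c : Fin m → F) (y : Fin m → Fin m → ℚ), (∀ i, A.mulVec (y i) = y i) ∧
      x = ∑ i, c i • (fun r => algebraMap ℚ F (y i r)) := by
  let e : Matrix (Fin m) (Fin m) ℚ := (j : ℚ)⁻¹ • ∑ i ∈ Finset.range j, A ^ i
  have hj0 : (j : ℚ) ≠ 0 := by exact_mod_cast hj.ne'
  have hAe : A * e = e := by
    change A * ((j : ℚ)⁻¹ • ∑ i ∈ Finset.range j, A ^ i) = _
    rw [Matrix.mul_smul, Finset.mul_sum]
    congr 1
    have h1 : ∑ i ∈ Finset.range j, A * A ^ i = ∑ i ∈ Finset.range j, A ^ (i + 1) := by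
      apply Finset.sum_congr rfl
      intro i _
      rw [pow_succ']
    rw [h1]
    have h2 := Finset.sum_range_succ (fun i => A ^ i) j
    have h3 := Finset.sum_range_succ' (fun i => A ^ i) j
    rw [h2, hA, pow_zero] at h3
    exact (add_right_cancel h3).symm
  refine ⟨x, fun i => e.mulVec (Pi.single i 1), fun i => ?_, ?_⟩
  · rw [Matrix.mulVec_mulVec, hAe]
  · have hpow : ∀ i : ℕ, ((A.map (algebraMap ℚ F)) ^ i).mulVec x = x := by
      intro i
      induction i with
      | zero => simp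
      | succ i ih => rw [pow_succ, ← Matrix.mulVec_mulVec, hx, ih]
    have hex : (e.map (algebraMap ℚ F)).mulVec x = x := by
      have h1 : e.map (algebraMap ℚ F) =
          (j : F)⁻¹ • ∑ i ∈ Finset.range j, (A.map (algebraMap ℚ F)) ^ i := by
        change ((j : ℚ)⁻¹ • ∑ i ∈ Finset.range j, A ^ i).map (algebraMap ℚ F) = _
        have h2 : ∀ M : Matrix (Fin m) (Fin m) ℚ, M.map (algebraMap ℚ F) =
          (algebraMap ℚ F).mapMatrix M := fun _ => rfl
        rw [h2, h2]
        have h3 : ((j : ℚ)⁻¹ • ∑ i ∈ Finset.range j, A ^ i) =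
            Matrix.scalar (Fin m) ((j : ℚ)⁻¹) * ∑ i ∈ Finset.range j, A ^ i := by
          rw [Matrix.scalar_apply, ← Matrix.smul_eq_diagonal_mul]
        rw [h3, map_mul, map_sum]
        simp only [map_pow]
        have h4 : (algebraMap ℚ F).mapMatrix (Matrix.scalar (Fin m) ((j : ℚ)⁻¹)) =
            Matrix.scalar (Fin m) ((j : F)⁻¹) := by
          ext a b
          simp [Matrix.scalar_apply, Matrix.diagonal_apply]
          split_ifs <;> simp
        rw [h4, Matrix.scalar_apply, ← Matrix.smul_eq_diagonal_mul]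
      rw [h1, Matrix.smul_mulVec, Matrix.sum_mulVec]
      simp only [hpow]
      rw [Finset.sum_const, Finset.card_range, ← Nat.cast_smul_eq_nsmul F, smul_smul,
        inv_mul_cancel₀ (by exact_mod_cast hj.ne'), one_smul]
    conv_lhs => rw [← hex]
    funext r
    rw [Finset.sum_apply, Matrix.mulVec, dotProduct]
    apply Finset.sum_congr rfl
    intro i _
    rw [Pi.smul_apply, smul_eq_mul, mul_comm]
    simp

theorem charpoly_blk (A : Matrix (Fin m) (Fin m) F) (B : Matrix (Fin n) (Fin n) F) :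
    (Matrix.fromBlocks A 0 0 B).charpoly = A.charpoly * B.charpoly :=
  Matrix.charpoly_fromBlocks_zero₁₂ A 0 B

/-- **Tate classes** -/
theorem tate_blocks (A : Matrix (Fin m) (Fin m) ℚ) (B : Matrix (Fin n) (Fin n) F)
    {j : ℕ} (hj : 0 < j) (hA : A ^ j = 1) (k : ℕ) (hB : (B ^ k).charpoly.rootMultiplicity 1 = 0)
    (D : Submodule F (Fin m ⊕ Fin n → F))
    (h1 : ∀ x ∈ D, (Matrix.toLin' (Matrix.fromBlocks (A.map (algebraMap ℚ F)) 0 0 B) ^ k) x = x)
    (h2 : ∀ y : Fin m → ℚ, (Matrix.toLin' A ^ k) y = y →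
      Sum.elim (fun i => algebraMap ℚ F (y i)) (0 : Fin n → F) ∈ D) :
    D = Module.End.eigenspace (Matrix.toLin' (Matrix.fromBlocks (A.map (algebraMap ℚ F)) 0 0 B) ^ k) 1 ∧
    Module.finrank F D =
      (Matrix.toLin' (Matrix.fromBlocks (A.map (algebraMap ℚ F)) 0 0 B) ^ k).charpoly.rootMultiplicity 1 ∧
    Module.finrank F D = Module.finrank ℚ (Module.End.eigenspace (Matrix.toLin' A ^ k) 1) := by
  set A' := A.map (algebraMap ℚ F) with hA'
  have hA'j : A' ^ j = 1 := by
    have h1 := (map_pow ((algebraMap ℚ F).mapMatrix (m := Fin m)) A j)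
    rw [hA, map_one] at h1
    exact h1.symm
  have hAk : (A ^ k) ^ j = 1 := by rw [← pow_mul, mul_comm, pow_mul, hA, one_pow]
  have hA'k : (A' ^ k) ^ j = 1 := by rw [← pow_mul, mul_comm, pow_mul, hA'j, one_pow]
  have hmap : (A ^ k).map (algebraMap ℚ F) = A' ^ k := map_pow ((algebraMap ℚ F).mapMatrix (m := Fin m)) A k
  have hgB : Module.End.maxGenEigenspace (Matrix.toLin' (B ^ k)) 1 = ⊥ := by
    rw [← Submodule.finrank_eq_zero, LinearMap.finrank_maxGenEigenspace_eq, Matrix.charpoly_toLin', hB]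
  have hw := weak_blocks A' B hj hA'j k (by rw [hB]; exact Nat.zero_le 1)
  have hD : D = Module.End.eigenspace (Matrix.toLin' (Matrix.fromBlocks A' 0 0 B) ^ k) 1 := by
    apply le_antisymm
    · intro x hx
      rw [Module.End.mem_eigenspace_iff, one_smul]
      exact h1 x hx
    · intro x hx
      have hx' := hx
      rw [← Matrix.toLin'_pow, Matrix.fromBlocks_diagonal_pow, mem_eig_iff] at hx'
      have hr : x ∘ Sum.inr = 0 := by
        have h3 : x ∘ Sum.inr ∈ Module.End.maxGenEigenspace (Matrix.toLin' (B ^ k)) 1 :=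
          Module.End.genEigenspace_le_maximal _ _ 1 hx'.2
        rw [hgB] at h3
        exact h3
      have hl := hx'.1
      rw [Module.End.mem_eigenspace_iff, one_smul, Matrix.toLin'_apply, ← hmap] at hl
      obtain ⟨c, y, hy, hxy⟩ := fixed_span (F := F) (A ^ k) hj hAk (x ∘ Sum.inl) hl
      have e : x = ∑ i, c i • (Sum.elim (fun r => algebraMap ℚ F (y i r)) (0 : Fin n → F)) := by
        funext r
        rw [Finset.sum_apply]
        rcases r with r | r
        · have := congrFun hxy r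
          rw [Finset.sum_apply] at this
          exact this
        · have := congrFun hr r
          simp only [Function.comp_apply, Pi.zero_apply] at this
          rw [this]
          simp
      rw [e]
      refine D.sum_mem fun i _ => D.smul_mem _ (h2 (y i) ?_)
      rw [← Matrix.toLin'_pow, Matrix.toLin'_apply]
      exact hy i
  have hfr : Module.finrank F D =
      (Matrix.toLin' (Matrix.fromBlocks A' 0 0 B) ^ k).charpoly.rootMultiplicity 1 := by
    rw [hD, ← hw, LinearMap.finrank_maxGenEigenspace_eq]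
  refine ⟨hD, hfr, ?_⟩
  rw [hfr, ← Matrix.toLin'_pow, Matrix.charpoly_toLin', Matrix.fromBlocks_diagonal_pow, charpoly_blk,
    rootMultiplicity_mul (mul_ne_zero (Matrix.charpoly_monic _).ne_zero (Matrix.charpoly_monic _).ne_zero),
    hB, add_zero, ← hmap, Matrix.charpoly_map]
  have h3 := eq_rootMultiplicity_map (algebraMap ℚ F).injective (p := (A ^ k).charpoly) 1
  rw [map_one] at h3
  rw [← h3, ← Matrix.charpoly_toLin', ← LinearMap.finrank_maxGenEigenspace_eq, gen_eq_of_fin (A ^ k) hj hAk,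
    Matrix.toLin'_pow]

end tate

end Pool.Agent.N144.OF
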