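import Pool.Agent.N144.OF.Main

/-!
# Roots of unity among the eigenvalues
-/

set_option autoImplicit false
set_option linter.all false

namespace Pool.Agent.N144.OF

open Polynomial Matrix

/-- `d` with `φ d ≤ n` divides `(2 n)!` -/
theorem dvd_of_totient {n d : ℕ} (hd : 0 < d) (h : d.totient ≤ n) : d ∣ (2 * n).factorial := by
  rw [Nat.dvd_iff_prime_pow_dvd_dvd]
  intro p k hp hpk
  rcases Nat.eq_zero_or_pos k with rfl | hk
  · simp
  have h1 : (p ^ k).totient ≤ n :=
    (Nat.le_of_dvd (Nat.totient_pos.mpr hd) (Nat.totient_dvd_of_dvd hpk)).trans h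
  apply Nat.dvd_factorial (pow_pos hp.pos k)
  rw [Nat.totient_prime_pow hp hk] at h1
  have h2 : p ≤ 2 * (p - 1) := by
    have := hp.two_le
    omega
  calc p ^ k = p ^ (k - 1) * p := by rw [← pow_succ, Nat.sub_add_cancel hk]
    _ ≤ p ^ (k - 1) * (2 * (p - 1)) := Nat.mul_le_mul_left _ h2
    _ = 2 * (p ^ (k - 1) * (p - 1)) := by ring
    _ ≤ 2 * n := Nat.mul_le_mul_left _ h1

/-- the exponent -/
def expo (n : ℕ) : ℕ := (2 * n).factorial

theorem expo_pos (n : ℕ) : 0 < expo n := Nat.factorial_pos _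

theorem order_bound {L : Type*} [Field L] [CharZero L] {P : ℚ[X]} (hP : P ≠ 0) {n : ℕ}
    (hn : P.natDegree ≤ n) {a : L} (ha : aeval a P = 0) {k : ℕ} (hk : 0 < k) (h : a ^ k = 1) :
    a ^ expo n = 1 := by
  have hfin : IsOfFinOrder a := isOfFinOrder_iff_pow_eq_one.mpr ⟨k, hk, h⟩
  have hpos : 0 < orderOf a := hfin.orderOf_pos
  have hprim : IsPrimitiveRoot a (orderOf a) := IsPrimitiveRoot.orderOf a
  have hmin := cyclotomic_eq_minpoly_rat hprim hpos
  have h1 : (orderOf a).totient ≤ n := by
    rw [← natDegree_cyclotomic (orderOf a) ℚ, hmin]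
    exact (natDegree_le_of_dvd (minpoly.dvd ℚ a ha) hP).trans hn
  obtain ⟨c, hc⟩ := dvd_of_totient hpos h1
  change a ^ (2 * n).factorial = 1
  rw [hc, pow_mul, pow_orderOf_eq_one, one_pow]

/-- the number of the roots whose `N`-th power is one -/
noncomputable def cnt {k : Type*} [Field k] (L : Type*) [Field L] [Algebra k L] (N : ℕ) (P : k[X]) : ℕ := by
  classical
  exact ((P.map (algebraMap k L)).roots.countP fun a => a ^ N = 1)

theorem cnt_emb {k : Type*} [Field k] {L L' : Type*} [Field L] [Field L'] [Algebra k L] [Algebra k L']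
    [IsAlgClosed L] (f : L →ₐ[k] L') (N : ℕ) (P : k[X]) : cnt L N P = cnt L' N P := by
  classical
  unfold cnt
  have h1 : (P.map (algebraMap k L')) = (P.map (algebraMap k L)).map (f : L →+* L') := by
    rw [Polynomial.map_map, AlgHom.comp_algebraMap]
  rw [h1, (IsAlgClosed.splits (P.map (algebraMap k L))).roots_map, Multiset.countP_map,
    Multiset.countP_eq_card_filter]
  congr 1
  apply Multiset.filter_congr
  intro a _
  constructor
  · intro h
    change (f a) ^ N = 1
    rw [← map_pow, h, map_one]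
  · intro h
    change (f a) ^ N = 1 at h
    rw [← map_pow] at h
    exact f.injective (h.trans (map_one f).symm)

theorem cnt_eq {k : Type*} [Field k] (L L' : Type*) [Field L] [Algebra k L] [Field L'] [Algebra k L']
    [IsAlgClosed L] [IsAlgClosed L'] (N : ℕ) (P : k[X]) : cnt L N P = cnt L' N P := by
  have f : AlgebraicClosure k →ₐ[k] L := IsAlgClosed.lift
  have g : AlgebraicClosure k →ₐ[k] L' := IsAlgClosed.lift
  rw [← cnt_emb f, ← cnt_emb g]

theorem mult_pow {F : Type} [Field F] [CharZero F] {n : ℕ} (M : Matrix (Fin n) (Fin n) F) (P : ℚ[X])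
    (hM : M.charpoly = P.map (algebraMap ℚ F)) (N : ℕ) (hN : N ≠ 0) :
    (M ^ N).charpoly.rootMultiplicity 1 = cnt ℂ N P := by
  classical
  set L := AlgebraicClosure F
  set f := algebraMap F L with hf
  rw [eq_rootMultiplicity_map f.injective, ← Matrix.charpoly_map, map_one]
  have e : (M ^ N).map f = (M.map f) ^ N := (map_pow (f.mapMatrix (m := Fin n)) M N)
  rw [e, Pool.Agent.W63.HS.TR.charpoly_pow (M.map f) hN, ← count_roots]
  have h1 : ((M.map f).charpoly.roots.map fun a => (X - C (a ^ N) : L[X])) =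
      ((M.map f).charpoly.roots.map fun a => a ^ N).map fun a => X - C a := by
    rw [Multiset.map_map]; rfl
  rw [h1, roots_multiset_prod_X_sub_C, Multiset.count_map, Matrix.charpoly_map, hM, Polynomial.map_map]
  have h2 : f.comp (algebraMap ℚ F) = algebraMap ℚ L := Subsingleton.elim _ _
  rw [h2, ← cnt_eq L ℂ]
  unfold cnt
  rw [Multiset.countP_eq_card_filter]
  congr 1
  apply Multiset.filter_congr
  intro a _
  exact eq_comm

/-- the number of roots which are roots of unity is the multiplicity for the exponent `expo n` -/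
theorem cnt_le {P : ℚ[X]} (hP : P ≠ 0) {n : ℕ}
    (hn : P.natDegree ≤ n) {k : ℕ} (hk : 0 < k) : cnt ℂ k P ≤ cnt ℂ (expo n) P := by
  classical
  unfold cnt
  rw [Multiset.countP_eq_card_filter, Multiset.countP_eq_card_filter]
  apply Multiset.card_le_card
  rw [Multiset.le_filter]
  refine ⟨Multiset.filter_le _ _, fun a ha => ?_⟩
  rw [Multiset.mem_filter] at ha
  have h1 : aeval a P = 0 := by
    have := isRoot_of_mem_roots ha.1
    rwa [IsRoot.def, eval_map_algebraMap] at this
  exact order_bound hP hn h1 hk ha.2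

/-- the number of roots which are roots of unity -/
noncomputable def unity (P : ℚ[X]) : ℕ := by
  classical
  exact ((P.map (algebraMap ℚ ℂ)).roots.countP fun a => ∃ k : ℕ, 0 < k ∧ a ^ k = 1)

theorem unity_eq {P : ℚ[X]} (hP : P ≠ 0) {n : ℕ} (hn : P.natDegree ≤ n) :
    unity P = cnt ℂ (expo n) P := by
  classical
  unfold unity cnt
  refine Multiset.countP_congr rfl ?_
  intro a ha
  have h1 : aeval a P = 0 := by
    have := isRoot_of_mem_roots ha
    rwa [IsRoot.def, eval_map_algebraMap] at this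
  apply propext
  constructor
  · rintro ⟨k, hk, h⟩
    exact order_bound hP hn h1 hk h
  · intro h
    exact ⟨_, expo_pos n, h⟩

section dder

/-- the derivative of the characteristic polynomial of a power at `1` -/
noncomputable def dder {R : Type*} [CommRing R] {n : ℕ} (N : ℕ) (M : Matrix (Fin n) (Fin n) R) : R :=
  (derivative (M ^ N).charpoly).eval 1

theorem dder_map {R S : Type*} [CommRing R] [CommRing S] (f : R →+* S) {n : ℕ} (N : ℕ)
    (M : Matrix (Fin n) (Fin n) R) : dder N (M.map f) = f (dder N M) := by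
  unfold dder
  have e : (M.map f) ^ N = (M ^ N).map f := (map_pow (f.mapMatrix (m := Fin n)) M N).symm
  rw [e, Matrix.charpoly_map, derivative_map, ← map_one f, eval_map_apply]

variable {G Ω : Type*} [Group G] [Field Ω] {n : ℕ} (τ : G →* Matrix (Fin n) (Fin n) Ω)

theorem dder_mem (N : ℕ) : (fun g => dder N (τ g)) ∈ PA τ := by
  let M' : Matrix (Fin n) (Fin n) (PA τ) := fun i j => ⟨_, entry_mem τ i j⟩
  have h2 : (fun g => dder N (τ g)) = ((dder N M' : PA τ) : G → Ω) := by
    funext g
    let ev : (PA τ) →+* Ω := (Pi.evalRingHom (fun _ : G => Ω) g).comp (PA τ).val.toRingHom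
    have h3 : M'.map ev = τ g := rfl
    have h4 := dder_map ev N M'
    rw [h3] at h4
    exact h4
  rw [h2]
  exact (dder N M').2

theorem charpoly_pow_conj (N : ℕ) (σ t : G) :
    ((τ (t * σ * t⁻¹)) ^ N).charpoly = ((τ σ) ^ N).charpoly := by
  rw [pow_conj, Matrix.charpoly_mul_comm, ← mul_assoc, inv_mul, one_mul]

theorem dder_conj (N : ℕ) (σ t : G) : dder N (τ (t * σ * t⁻¹)) = dder N (τ σ) := by
  unfold dder
  rw [charpoly_pow_conj]

theorem dpow_eq {F : Type*} [Field F] (N : ℕ) (M : Matrix (Fin n) (Fin n) F) :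
    dpow N M = 0 ↔ ((M ^ N).charpoly).IsRoot 1 := by
  rw [IsRoot.def, Matrix.eval_charpoly]
  unfold dpow
  have : Matrix.scalar (Fin n) (1 : F) - M ^ N = - (M ^ N - 1) := by
    rw [map_one]; abel
  rw [this, Matrix.det_neg]
  constructor
  · intro h
    rw [h, mul_zero]
  · intro h
    rcases mul_eq_zero.mp h with h | h
    · exact absurd h (pow_ne_zero _ (by simp))
    · exact h

/-- the multiplicity is at most one -/
theorem mult_le_one_iff {F : Type*} [Field F] (N : ℕ) (M : Matrix (Fin n) (Fin n) F) :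
    (M ^ N).charpoly.rootMultiplicity 1 ≤ 1 ↔ (dpow N M ≠ 0 ∨ dder N M ≠ 0) := by
  have h := one_lt_rootMultiplicity_iff_isRoot (p := (M ^ N).charpoly) (t := 1)
    (Matrix.charpoly_monic _).ne_zero
  rw [← not_lt, h, not_and_or, ← dpow_eq]
  rfl

end dder

end Pool.Agent.N144.OF
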